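import Pool.Agent.AC215.SR
import Pool.Agent.Results.MP_4b1745_al.OneVariable

namespace Pool.Agent.AC215

open HahnSeries Finset
open scoped Pointwise
open Pool.Agent.Results.MP_4b1745_al.OneVariable

/-- `A` is an algebra over `C` and the elements of `C` are constants. -/
class IsCst (C A : Type*) [CommRing C] [CommRing A] [Algebra C A] [DD A] : Prop where
  h1 : ∀ c : C, (d1 : Der A) (algebraMap C A c) = 0
  h2 : ∀ c : C, (d2 : Der A) (algebraMap C A c) = 0

section cst
variable (C A : Type*) [CommRing C] [CommRing A] [Algebra C A] [DD A] [IsCst C A]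

/-- Constant series. -/
noncomputable def cst : HahnSeries ℚ C →+* SR A where
  toFun p := HahnSeries.map p (algebraMap C A)
  map_one' := by
    apply SR.ext'
    intro q
    change algebraMap C A ((1 : HahnSeries ℚ C).coeff q) = (1 : HahnSeries ℚ A).coeff q
    rw [coeff_one, coeff_one]; split_ifs <;> simp
  map_mul' x y := by
    change (HahnSeries.map (x * y) (algebraMap C A) : HahnSeries ℚ A) =
      star (HahnSeries.map x (algebraMap C A)) (HahnSeries.map y (algebraMap C A))
    rw [star_const_left, hmap_mul]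
    ext q
    rw [hD_coeff, HahnSeries.map_coeff, IsCst.h1, coeff_zero]
  map_zero' := by
    apply SR.ext'
    intro q
    exact map_zero (algebraMap C A)
  map_add' x y := by
    apply SR.ext'
    intro q
    exact map_add (algebraMap C A) _ _

theorem cst_co (p : HahnSeries ℚ C) (q : ℚ) : (cst C A p).co q = algebraMap C A (p.coeff q) := rfl

theorem cst_central (p : HahnSeries ℚ C) (x : SR A) : cst C A p * x = x * cst C A p := by
  have h1 : D1 (HahnSeries.map p (algebraMap C A) : HahnSeries ℚ A) = 0 := by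
    ext q
    rw [hD_coeff, HahnSeries.map_coeff, IsCst.h1, coeff_zero]
  have h2 : D2 (HahnSeries.map p (algebraMap C A) : HahnSeries ℚ A) = 0 := by
    ext q
    rw [hD_coeff, HahnSeries.map_coeff, IsCst.h2, coeff_zero]
  have key : ∀ y : HahnSeries ℚ A, star (HahnSeries.map p (algebraMap C A)) y =
      star y (HahnSeries.map p (algebraMap C A)) := fun y => by
    rw [star_const_left h1, star_const_right h2, mul_comm]
  exact key x

noncomputable instance : Algebra (HahnSeries ℚ C) (SR A) where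
  algebraMap := cst C A
  smul r x := cst C A r * x
  commutes' r x := cst_central C A r x
  smul_def' _ _ := rfl

theorem algebraMap_SR (p : HahnSeries ℚ C) : algebraMap (HahnSeries ℚ C) (SR A) p = cst C A p := rfl

variable {C A}
variable {B : Type*} [CommRing B] [Algebra C B] [DD B] [IsCst C B]

/-- Functoriality, as algebra homomorphisms. -/
noncomputable def mapA (φ : A →+* B) (h : IsD φ) (hc : ∀ c : C, φ (algebraMap C A c) = algebraMap C B c) :
    SR A →ₐ[HahnSeries ℚ C] SR B :=
  { SR.map φ h with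
    commutes' := fun p => by
      apply SR.ext'
      intro q
      change φ (algebraMap C A (p.coeff q)) = algebraMap C B (p.coeff q)
      rw [hc] }

@[simp] theorem mapA_co (φ : A →+* B) (h : IsD φ) (hc : ∀ c : C, φ (algebraMap C A c) = algebraMap C B c)
    (x : SR A) (q : ℚ) : (mapA φ h hc x).co q = φ (x.co q) := rfl

theorem mapA_sg (φ : A →+* B) (h : IsD φ) (hc : ∀ c : C, φ (algebraMap C A c) = algebraMap C B c)
    (g : ℚ) (a : A) : mapA φ h hc (sg g a) = sg g (φ a) := SR.map_sg φ h g a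

theorem mapA_hs (φ : A →+* B) (h : IsD φ) (hc : ∀ c : C, φ (algebraMap C A c) = algebraMap C B c)
    (g r : ℚ) : mapA φ h hc (hs g r) = hs g r := SR.map_hs φ h g r

/-- Evaluation of polynomials over `SR A` at the central element `r ħ^g`. -/
noncomputable def evh (C : Type*) [CommRing C] [Algebra C A] [IsCst C A] (g r : ℚ) :
    Polynomial (SR A) →ₐ[HahnSeries ℚ C] SR A :=
  { Polynomial.eval₂RingHom' (RingHom.id (SR A)) (hs g r) (fun a => hs_central g r a) with
    commutes' := fun p => by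
      change Polynomial.eval₂ (RingHom.id (SR A)) (hs g r) (Polynomial.C (cst C A p)) = _
      rw [Polynomial.eval₂_C]; rfl }

theorem evh_apply (g r : ℚ) (H : Polynomial (SR A)) :
    evh C g r H = Polynomial.eval₂ (RingHom.id (SR A)) (hs g r) H := rfl

@[simp] theorem evh_C (g r : ℚ) (x : SR A) : evh C g r (Polynomial.C x) = x := by
  rw [evh_apply, Polynomial.eval₂_C]; rfl
@[simp] theorem evh_X (g r : ℚ) : evh C g r (Polynomial.X : Polynomial (SR A)) = hs g r := by
  rw [evh_apply, Polynomial.eval₂_X]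

theorem evh_co (g r q : ℚ) (H : Polynomial (SR A)) :
    (evh C g r H).co q = ∑ d ∈ H.support, (H.coeff d).co (q - d * g) * DD.q (r ^ d) := by
  rw [evh_apply, Polynomial.eval₂_eq_sum, Polynomial.sum, SR.co_sum]
  refine sum_congr rfl fun d _ => ?_
  rw [RingHom.id_apply, hs_pow, mul_hs_co]

/-- If `H(r ħ^g)` has the same coefficient at `q` for all rational `r` then the higher
coefficients of `H` do not contribute to it. -/
theorem lam [IsDomain A] (g q : ℚ) (H : Polynomial (SR A)) (c : A)
    (h : ∀ r : ℚ, (evh C g r H).co q = c) (d : ℕ) (hd : 1 ≤ d) : (H.coeff d).co (q - d * g) = 0 := by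
  classical
  set p : Polynomial A := (∑ d ∈ H.support, Polynomial.monomial d ((H.coeff d).co (q - d * g))) -
    Polynomial.C c with hp
  have hroot : ∀ r : ℚ, p.IsRoot (DD.q r) := by
    intro r
    rw [Polynomial.IsRoot, hp, Polynomial.eval_sub, Polynomial.eval_C, Polynomial.eval_finsetSum,
      sub_eq_zero, ← h r, evh_co]
    refine sum_congr rfl fun d _ => ?_
    rw [Polynomial.eval_monomial, map_pow]
  have hinf : Set.Infinite {x | p.IsRoot x} := by
    refine (Set.infinite_range_of_injective (f := (DD.q : ℚ →+* A)) (RingHom.injective _)).mono ?_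
    rintro _ ⟨r, rfl⟩
    exact hroot r
  have h0 : p = 0 := Polynomial.eq_zero_of_infinite_isRoot p hinf
  by_cases hs : d ∈ H.support
  · have := congrArg (fun p => Polynomial.coeff p d) h0
    simp only [hp, Polynomial.coeff_sub, Polynomial.finsetSum_coeff, Polynomial.coeff_monomial,
      Polynomial.coeff_zero, Polynomial.coeff_C, if_neg (show ¬ d = 0 by omega), sub_zero] at this
    rwa [Finset.sum_ite_eq' H.support d, if_pos hs] at this
  · rw [Polynomial.notMem_support_iff.mp hs]; rfl

end cst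

section conv
variable {A : Type*} [CommRing A]

theorem pwo_lower {s : Set ℚ} (hs : s.IsPWO) : ∃ α, ∀ q ∈ s, α ≤ q := by
  by_cases hn : s.Nonempty
  · exact ⟨hs.isWF.min hn, fun q hq => hs.isWF.min_le hn hq⟩
  · exact ⟨0, fun q hq => absurd ⟨q, hq⟩ hn⟩

/-- Coefficientwise convergence with supports in a common well-ordered set. -/
def Conv {ι : Type*} (l : Filter ι) (φ : ι → SR A) (Φ : SR A) : Prop :=
  ∃ s : Set ℚ, s.IsPWO ∧ (∀ i q, (φ i).co q ≠ 0 → q ∈ s) ∧ (∀ q, Φ.co q ≠ 0 → q ∈ s) ∧
    ∀ q, ∀ᶠ i in l, (φ i).co q = Φ.co q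

theorem Conv.const {ι : Type*} (l : Filter ι) (Φ : SR A) : Conv l (fun _ => Φ) Φ :=
  ⟨{q | Φ.co q ≠ 0}, HahnSeries.isPWO_support (Φ : HahnSeries ℚ A), fun _ _ h => h, fun _ h => h,
    fun _ => Filter.Eventually.of_forall fun _ => rfl⟩

theorem Conv.add {ι : Type*} {l : Filter ι} {φ ψ : ι → SR A} {Φ Ψ : SR A} (h1 : Conv l φ Φ)
    (h2 : Conv l ψ Ψ) : Conv l (fun i => φ i + ψ i) (Φ + Ψ) := by
  obtain ⟨s, hs, a1, a2, a3⟩ := h1
  obtain ⟨t, ht, b1, b2, b3⟩ := h2
  refine ⟨s ∪ t, hs.union ht, ?_, ?_, ?_⟩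
  · intro i q h
    by_cases h1 : (φ i).co q = 0
    · right; apply b1 i; intro h2; apply h; rw [SR.co_add, h1, h2, add_zero]
    · left; exact a1 i q h1
  · intro q h
    by_cases h1 : Φ.co q = 0
    · right; apply b2; intro h2; apply h; rw [SR.co_add, h1, h2, add_zero]
    · left; exact a2 q h1
  · intro q
    filter_upwards [a3 q, b3 q] with i h1 h2
    rw [SR.co_add, SR.co_add, h1, h2]

variable [DD A]

theorem star_formula {a b : HahnSeries ℚ A} {s t : Set ℚ} (hs : s.IsPWO) (ht : t.IsPWO)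
    (ha : a.support ⊆ s) (hb : b.support ⊆ t) {α β : ℚ} (hα : ∀ q ∈ s, α ≤ q) (hβ : ∀ q ∈ t, β ≤ q)
    {q : ℚ} {N : ℕ} (hN : q < N + (α + β)) :
    (star a b).coeff q = ∑ n ∈ range N, fi A n *
      ∑ ij ∈ Finset.antidiagonal hs ht (q - n), (d1 : Der A)^[n] (a.coeff ij.1) * (d2 : Der A)^[n] (b.coeff ij.2) := by
  have ha' : a ∈ J A α := fun p hp => by
    by_contra h; exact absurd (hα p (ha h)) (not_le.mpr hp)
  have hb' : b ∈ J A β := fun p hp => by
    by_contra h; exact absurd (hβ p (hb h)) (not_le.mpr hp)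
  have e1 := star_sub_PN ha' hb' N q hN
  rw [coeff_sub, sub_eq_zero] at e1
  rw [e1, PN, coeff_sum]
  refine sum_congr rfl fun n _ => ?_
  rw [tm, HahnSeries.coeff_single_mul, coeff_mul_ext hs ht ((hD_iter_support _ _ _).trans ha)
    ((hD_iter_support _ _ _).trans hb)]
  simp only [hD_iter]

theorem Conv.mul {ι : Type*} {l : Filter ι} {φ ψ : ι → SR A} {Φ Ψ : SR A} (h1 : Conv l φ Φ)
    (h2 : Conv l ψ Ψ) : Conv l (fun i => φ i * ψ i) (Φ * Ψ) := by
  obtain ⟨s, hs, a1, a2, a3⟩ := h1
  obtain ⟨t, ht, b1, b2, b3⟩ := h2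
  obtain ⟨α, hα⟩ := pwo_lower hs
  obtain ⟨β, hβ⟩ := pwo_lower ht
  have sup : ∀ x y : HahnSeries ℚ A, x.support ⊆ s → y.support ⊆ t →
      (star x y).support ⊆ Set.range ((↑) : ℕ → ℚ) + (s + t) := by
    intro x y hx hy q hq
    by_contra hcon
    exact hq (finsum_eq_zero_of_forall_eq_zero fun n => by
      by_contra hn
      exact hcon (Set.add_subset_add_left (Set.add_subset_add hx hy) (tm_support n x y hn)))
  refine ⟨_, natRange_isPWO.add (hs.add ht), ?_, ?_, ?_⟩
  · intro i q h
    exact sup (φ i) (ψ i) (fun q hq => a1 i q hq) (fun q hq => b1 i q hq) h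
  · intro q h
    exact sup Φ Ψ (fun q hq => a2 q hq) (fun q hq => b2 q hq) h
  · intro q
    obtain ⟨N, hN⟩ := exists_nat_gt (q - (α + β))
    have hN' : q < N + (α + β) := by linarith
    have ev1 : ∀ᶠ i in l, ∀ n ∈ range N, ∀ ij ∈ Finset.antidiagonal hs ht (q - n),
        (φ i).co ij.1 = Φ.co ij.1 ∧ (ψ i).co ij.2 = Ψ.co ij.2 := by
      rw [Filter.eventually_all_finset]
      intro n _
      rw [Filter.eventually_all_finset]
      intro ij _
      exact (a3 ij.1).and (b3 ij.2)
    filter_upwards [ev1] with i hi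
    have f1 := star_formula (a := (φ i : HahnSeries ℚ A)) (b := (ψ i : HahnSeries ℚ A)) hs ht
      (fun q hq => a1 i q hq) (fun q hq => b1 i q hq) hα hβ hN'
    have f2 := star_formula (a := (Φ : HahnSeries ℚ A)) (b := (Ψ : HahnSeries ℚ A)) hs ht
      (fun q hq => a2 q hq) (fun q hq => b2 q hq) hα hβ hN'
    refine f1.trans (Eq.trans ?_ f2.symm)
    refine sum_congr rfl fun n hn => ?_
    congr 1
    refine sum_congr rfl fun ij hij => ?_
    have := hi n hn ij hij
    congr 1
    · exact congrArg _ this.1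
    · exact congrArg _ this.2

end conv

section free
variable {P R : Type*} [Field P] [Ring R] [Algebra P R]

/-- Evaluation homomorphism of the free product in one variable. -/
noncomputable def ev1 {E : Type*} [Ring E] [Algebra P E] (ρ : R →ₐ[P] E) (b : E) :
    FreeOver P R Unit →ₐ[P] E := lift ρ (fun _ => b)

@[simp] theorem ev1_const {E : Type*} [Ring E] [Algebra P E] (ρ : R →ₐ[P] E) (b : E) (a : R) :
    ev1 ρ b (const P R Unit a) = ρ a := lift_const _ _ _

@[simp] theorem ev1_var {E : Type*} [Ring E] [Algebra P E] (ρ : R →ₐ[P] E) (b : E) :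
    ev1 ρ b (var P R Unit ()) = b := lift_var _ _ _

theorem free_ext {E : Type*} [Ring E] [Algebra P E] {ψ χ : FreeOver P R Unit →ₐ[P] E}
    (h1 : ∀ a, ψ (const P R Unit a) = χ (const P R Unit a))
    (h2 : ψ (var P R Unit ()) = χ (var P R Unit ())) (f : FreeOver P R Unit) : ψ f = χ f := by
  have : ψ = χ := hom_ext' ψ χ h1 (fun _ => h2)
  rw [this]

theorem comp_ev1 {E E' : Type*} [Ring E] [Algebra P E] [Ring E'] [Algebra P E'] (ψ : E →ₐ[P] E')
    (ρ : R →ₐ[P] E) (b : E) (f : FreeOver P R Unit) : ψ (ev1 ρ b f) = ev1 (ψ.comp ρ) (ψ b) f :=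
  free_ext (ψ := ψ.comp (ev1 ρ b)) (χ := ev1 (ψ.comp ρ) (ψ b)) (fun a => by simp) (by simp) f

end free

end Pool.Agent.AC215
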