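import Mathlib

namespace Pool.Agent.AC215

open MvPolynomial

/-- Derivations of a commutative ring. -/
structure Der (A : Type*) [CommRing A] where
  toFun : A → A
  add' : ∀ a b, toFun (a + b) = toFun a + toFun b
  leib' : ∀ a b, toFun (a * b) = a * toFun b + b * toFun a

instance {A : Type*} [CommRing A] : FunLike (Der A) A A where
  coe D := D.toFun
  coe_injective D E h := by cases D; cases E; congr

instance {A : Type*} [CommRing A] : AddMonoidHomClass (Der A) A A where
  map_add D := D.add'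
  map_zero D := by
    have := D.add' 0 0
    rw [add_zero] at this
    exact left_eq_add.mp this

theorem Der.leib {A : Type*} [CommRing A] (D : Der A) (a b : A) : D (a * b) = a * D b + b * D a :=
  D.leib' a b

@[simp] theorem Der.one {A : Type*} [CommRing A] (D : Der A) : D 1 = 0 := by
  have := D.leib 1 1
  rw [one_mul, one_mul] at this
  exact left_eq_add.mp this

@[simp] theorem Der.natCast {A : Type*} [CommRing A] (D : Der A) (n : ℕ) : D (n : A) = 0 := by
  induction n with
  | zero => simp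
  | succ n ih => simp [ih]

@[simp] theorem Der.intCast {A : Type*} [CommRing A] (D : Der A) (n : ℤ) : D (n : A) = 0 := by
  obtain ⟨n, rfl | rfl⟩ := n.eq_nat_or_neg <;> simp

/-- A commutative ring containing `ℚ`, with two commuting derivations. -/
class DD (A : Type*) [CommRing A] where
  q : ℚ →+* A
  d1 : Der A
  d2 : Der A
  comm : ∀ a, d1 (d2 a) = d2 (d1 a)

export DD (d1 d2)

/-- Every equation `G = 0` with `G` a non-constant differential polynomial in one unknown over `U`
has a solution in `U`; the variable `(a, b)` of `G` stands for `d1^a d2^b` of the unknown. -/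
def DClosed (U : Type*) [Field U] [DD U] : Prop :=
  ∀ G : MvPolynomial (Unit × ℕ × ℕ) U, (∀ c, G ≠ C c) →
    ∃ u : U, MvPolynomial.eval (fun x => (d1 : Der U)^[x.2.1] ((d2 : Der U)^[x.2.2] u)) G = 0

section basic
variable {A : Type*} [CommRing A]

theorem der_q (D : Der A) (q : ℚ →+* A) (r : ℚ) : D (q r) = 0 := by
  have h1 : (r.den : A) * q r = (r.num : A) := by
    rw [← map_natCast q, ← map_mul, ← map_intCast q]
    congr 1
    exact Rat.den_mul_eq_num r
  have h2 : (r.den : A) * D (q r) = 0 := by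
    have := congrArg D h1
    rw [Der.leib, Der.natCast, Der.intCast] at this
    simpa using this
  have h3 : q ((r.den : ℚ)⁻¹) * (r.den : A) = 1 := by
    rw [← map_natCast q, ← map_mul, inv_mul_cancel₀ (by exact_mod_cast r.den_nz), map_one]
  calc D (q r) = (q ((r.den : ℚ)⁻¹) * (r.den : A)) * D (q r) := by rw [h3, one_mul]
    _ = 0 := by rw [mul_assoc, h2, mul_zero]

variable [DD A]

theorem dcomm (a : A) : (d1 : Der A) (d2 a) = (d2 : Der A) (d1 a) := DD.comm a

/-- The iterated derivative `d1^i d2^j a`. -/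
def dd (i j : ℕ) (a : A) : A := (d1 : Der A)^[i] ((d2 : Der A)^[j] a)

@[simp] theorem dd_zero_zero (a : A) : dd 0 0 a = a := rfl

theorem d1_dd (i j : ℕ) (a : A) : (d1 : Der A) (dd i j a) = dd (i + 1) j a := by
  rw [dd, dd, Function.iterate_succ_apply']

theorem d2_iter (i : ℕ) (a : A) : (d2 : Der A) ((d1 : Der A)^[i] a) =
    (d1 : Der A)^[i] ((d2 : Der A) a) := by
  induction i generalizing a with
  | zero => rfl
  | succ n ih => rw [Function.iterate_succ_apply, Function.iterate_succ_apply, ih, ← dcomm]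

theorem d2_dd (i j : ℕ) (a : A) : (d2 : Der A) (dd i j a) = dd i (j + 1) a := by
  rw [dd, dd, d2_iter, ← Function.iterate_succ_apply' (f := (d2 : Der A))]

theorem dd_add (i j : ℕ) (a b : A) : dd i j (a + b) = dd i j a + dd i j b := by
  rw [dd, dd, dd]
  rw [iterate_map_add, iterate_map_add]

end basic

/-- Homomorphisms commuting with the derivations. -/
structure IsD {A B : Type*} [CommRing A] [CommRing B] [DD A] [DD B] (φ : A →+* B) : Prop where
  h1 : ∀ a, φ (d1 a) = d1 (φ a)
  h2 : ∀ a, φ (d2 a) = d2 (φ a)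

section homs
variable {A B C : Type*} [CommRing A] [CommRing B] [CommRing C] [DD A] [DD B] [DD C]

theorem IsD.id : IsD (RingHom.id A) := ⟨fun _ => rfl, fun _ => rfl⟩

theorem IsD.comp {ψ : B →+* C} {φ : A →+* B} (hψ : IsD ψ) (hφ : IsD φ) : IsD (ψ.comp φ) :=
  ⟨fun a => by simp [hφ.h1, hψ.h1], fun a => by simp [hφ.h2, hψ.h2]⟩

theorem IsD.dd {φ : A →+* B} (h : IsD φ) (i j : ℕ) (a : A) : φ (dd i j a) = dd i j (φ a) := by
  rw [AC215.dd, AC215.dd]
  have e1 : ∀ (n : ℕ) (a : A), φ ((d1 : Der A)^[n] a) = (d1 : Der B)^[n] (φ a) := by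
    intro n; induction n with
    | zero => intro a; rfl
    | succ n ih => intro a; rw [Function.iterate_succ_apply, Function.iterate_succ_apply, ih, h.h1]
  have e2 : ∀ (n : ℕ) (a : A), φ ((d2 : Der A)^[n] a) = (d2 : Der B)^[n] (φ a) := by
    intro n; induction n with
    | zero => intro a; rfl
    | succ n ih => intro a; rw [Function.iterate_succ_apply, Function.iterate_succ_apply, ih, h.h2]
  rw [e1, e2]

end homs

/-- A derivation from a ring homomorphism to the dual numbers. -/
noncomputable def derOfHom {A : Type*} [CommRing A] (h : A →+* DualNumber A)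
    (hfst : ∀ a, TrivSqZeroExt.fst (h a) = a) : Der A :=
  ⟨fun a => TrivSqZeroExt.snd (h a), fun a b => by simp, fun a b => by
      rw [map_mul, TrivSqZeroExt.snd_mul, hfst, hfst]
      simp [mul_comm]⟩

@[simp] theorem derOfHom_apply {A : Type*} [CommRing A] (h : A →+* DualNumber A)
    (hfst : ∀ a, TrivSqZeroExt.fst (h a) = a) (a : A) :
    derOfHom h hfst a = TrivSqZeroExt.snd (h a) := rfl

/-- The dual number `a + b ε`. -/
noncomputable def mkD {A : Type*} [CommRing A] (a b : A) : DualNumber A :=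
  TrivSqZeroExt.inl a + TrivSqZeroExt.inr b

@[simp] theorem fst_mkD {A : Type*} [CommRing A] (a b : A) : TrivSqZeroExt.fst (mkD a b) = a := by
  simp [mkD]
@[simp] theorem snd_mkD {A : Type*} [CommRing A] (a b : A) : TrivSqZeroExt.snd (mkD a b) = b := by
  simp [mkD]

/-- The ring homomorphism `a ↦ g a + g (D a) ε`. -/
noncomputable def homD {A B : Type*} [CommRing A] [CommRing B] (D : Der A) (g : A →+* B) :
    A →+* DualNumber B where
  toFun := fun a => mkD (g a) (g (D a))
  map_one' := by refine TrivSqZeroExt.ext ?_ ?_ <;> simp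
  map_mul' := fun a b => by
    refine TrivSqZeroExt.ext ?_ ?_
    · simp
    · rw [TrivSqZeroExt.snd_mul]; simp [Der.leib, mul_comm]
  map_zero' := by refine TrivSqZeroExt.ext ?_ ?_ <;> simp
  map_add' := fun a b => by refine TrivSqZeroExt.ext ?_ ?_ <;> simp

theorem homD_apply {A B : Type*} [CommRing A] [CommRing B] (D : Der A) (g : A →+* B) (a : A) :
    homD D g a = mkD (g a) (g (D a)) := rfl

section ext
variable {A : Type*} [CommRing A]

theorem mv_der_eq_zero {σ B : Type*} [CommRing B] (φ : MvPolynomial σ A →+* B)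
    (D : MvPolynomial σ A → B) (hadd : ∀ a b, D (a + b) = D a + D b)
    (hmul : ∀ a b, D (a * b) = φ a * D b + φ b * D a)
    (hC : ∀ a, D (C a) = 0) (hX : ∀ i, D (X i) = 0)
    (p : MvPolynomial σ A) : D p = 0 := by
  induction p using MvPolynomial.induction_on with
  | C a => exact hC a
  | add p q hp hq => rw [hadd, hp, hq, add_zero]
  | mul_X p i hp => rw [hmul, hp, hX, mul_zero, mul_zero, add_zero]

/-- The ring homomorphism behind `mvDer`. -/
noncomputable def mvHom {σ : Type*} (D : Der A) (f : σ → MvPolynomial σ A) :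
    MvPolynomial σ A →+* DualNumber (MvPolynomial σ A) :=
  eval₂Hom (homD D C) (fun i => mkD (X i) (f i))

theorem mvHom_fst {σ : Type*} (D : Der A) (f : σ → MvPolynomial σ A) (p : MvPolynomial σ A) :
    TrivSqZeroExt.fst (mvHom D f p) = p := by
  induction p using MvPolynomial.induction_on with
  | C a => rw [mvHom, coe_eval₂Hom, eval₂_C, homD_apply, fst_mkD]
  | add p q hp hq => rw [map_add, TrivSqZeroExt.fst_add, hp, hq]
  | mul_X p i hp =>
    rw [map_mul, TrivSqZeroExt.fst_mul, hp, mvHom, coe_eval₂Hom, eval₂_X, fst_mkD]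

/-- Extension of a derivation of `A` to a polynomial ring, with given values on the variables. -/
noncomputable def mvDer {σ : Type*} (D : Der A) (f : σ → MvPolynomial σ A) :
    Der (MvPolynomial σ A) :=
  derOfHom (mvHom D f) (mvHom_fst D f)

theorem mvDer_C {σ : Type*} (D : Der A) (f : σ → MvPolynomial σ A) (a : A) :
    mvDer D f (C a) = C (D a) := by
  rw [mvDer, derOfHom_apply, mvHom, coe_eval₂Hom, eval₂_C, homD_apply, snd_mkD]

theorem mvDer_X {σ : Type*} (D : Der A) (f : σ → MvPolynomial σ A) (i : σ) :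
    mvDer D f (X i) = f i := by
  rw [mvDer, derOfHom_apply, mvHom, coe_eval₂Hom, eval₂_X, snd_mkD]

end ext

section poly
variable {A : Type*} [CommRing A] [DD A] {ι : Type*}

/-- Differential polynomials in the variables `X_i`, `i ∈ ι`: the variable `(i, a, b)` stands for
`d1^a d2^b X_i`. -/
noncomputable instance : DD (MvPolynomial (ι × ℕ × ℕ) A) where
  q := C.comp DD.q
  d1 := mvDer d1 (fun x => X (x.1, x.2.1 + 1, x.2.2))
  d2 := mvDer d2 (fun x => X (x.1, x.2.1, x.2.2 + 1))
  comm := fun p => by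
    rw [← sub_eq_zero]
    refine mv_der_eq_zero (RingHom.id _) (fun p => mvDer d1 (fun x => X (x.1, x.2.1 + 1, x.2.2)) (mvDer d2 (fun x => X (x.1, x.2.1, x.2.2 + 1)) p) -
      mvDer d2 (fun x => X (x.1, x.2.1, x.2.2 + 1)) (mvDer d1 (fun x => X (x.1, x.2.1 + 1, x.2.2)) p)) ?_ ?_ ?_ ?_ p
    · intro a b; simp; ring
    · intro a b; simp [Der.leib]; ring
    · intro a; simp only [mvDer_C, dcomm, sub_self]
    · intro i; simp [mvDer_X]

theorem d1_C (a : A) : (d1 : Der (MvPolynomial (ι × ℕ × ℕ) A)) (C a) = C (d1 a) := mvDer_C _ _ _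
theorem d2_C (a : A) : (d2 : Der (MvPolynomial (ι × ℕ × ℕ) A)) (C a) = C (d2 a) := mvDer_C _ _ _
theorem d1_X (x : ι × ℕ × ℕ) : (d1 : Der (MvPolynomial (ι × ℕ × ℕ) A)) (X x) = X (x.1, x.2.1 + 1, x.2.2) :=
  mvDer_X _ _ _
theorem d2_X (x : ι × ℕ × ℕ) : (d2 : Der (MvPolynomial (ι × ℕ × ℕ) A)) (X x) = X (x.1, x.2.1, x.2.2 + 1) :=
  mvDer_X _ _ _

theorem isD_C : IsD (C : A →+* MvPolynomial (ι × ℕ × ℕ) A) := ⟨fun a => (d1_C a).symm, fun a => (d2_C a).symm⟩

theorem dd_X (i : ι) (a b : ℕ) : dd a b (X (i, 0, 0) : MvPolynomial (ι × ℕ × ℕ) A) = X (i, a, b) := by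
  have h2 : ∀ b : ℕ, (d2 : Der (MvPolynomial (ι × ℕ × ℕ) A))^[b] (X (i, 0, 0)) = X (i, 0, b) := by
    intro b; induction b with
    | zero => rfl
    | succ n ih => rw [Function.iterate_succ_apply', ih, d2_X]
  have h1 : ∀ a : ℕ, (d1 : Der (MvPolynomial (ι × ℕ × ℕ) A))^[a] (X (i, 0, b)) = X (i, a, b) := by
    intro a; induction a with
    | zero => rfl
    | succ n ih => rw [Function.iterate_succ_apply', ih, d1_X]
  rw [dd, h2, h1]

variable {E : Type*} [CommRing E] [DD E]

/-- Differential evaluation: `X_i ↦ e i`. -/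
noncomputable def evd (φ : A →+* E) (e : ι → E) : MvPolynomial (ι × ℕ × ℕ) A →+* E :=
  eval₂Hom φ (fun x => dd x.2.1 x.2.2 (e x.1))

omit [DD A] in
@[simp] theorem evd_C (φ : A →+* E) (e : ι → E) (a : A) : evd φ e (C a) = φ a := by
  rw [evd, coe_eval₂Hom, eval₂_C]

omit [DD A] in
@[simp] theorem evd_X (φ : A →+* E) (e : ι → E) (x : ι × ℕ × ℕ) :
    evd φ e (X x) = dd x.2.1 x.2.2 (e x.1) := by
  rw [evd, coe_eval₂Hom, eval₂_X]

theorem isD_evd {φ : A →+* E} (h : IsD φ) (e : ι → E) : IsD (evd φ e) := by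
  constructor
  · intro p
    rw [← sub_eq_zero]
    refine mv_der_eq_zero (evd φ e) (fun p => evd φ e (d1 p) - d1 (evd φ e p)) ?_ ?_ ?_ ?_ p
    · intro a b; simp; ring
    · intro a b; simp [Der.leib]; ring
    · intro a; simp [d1_C, h.h1]
    · intro i; simp [d1_X, d1_dd]
  · intro p
    rw [← sub_eq_zero]
    refine mv_der_eq_zero (evd φ e) (fun p => evd φ e (d2 p) - d2 (evd φ e p)) ?_ ?_ ?_ ?_ p
    · intro a b; simp; ring
    · intro a b; simp [Der.leib]; ring
    · intro a; simp [d2_C, h.h2]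
    · intro i; simp [d2_X, d2_dd]

theorem evd_ext {ψ χ : MvPolynomial (ι × ℕ × ℕ) A →+* E} (hψ : IsD ψ) (hχ : IsD χ)
    (hC : ∀ a, ψ (C a) = χ (C a)) (hX : ∀ i, ψ (X (i, 0, 0)) = χ (X (i, 0, 0))) : ψ = χ := by
  apply MvPolynomial.ringHom_ext
  · exact hC
  · rintro ⟨i, a, b⟩
    rw [← dd_X, hψ.dd, hχ.dd, hX]

end poly

section frac
variable {B : Type*} [CommRing B] [IsDomain B] (K : Type*) [Field K] [Algebra B K] [IsFractionRing B K]

theorem algMap_ne_zero {b : B} (hb : b ∈ nonZeroDivisors B) : algebraMap B K b ≠ 0 := by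
  intro h
  have := (IsFractionRing.injective B K) (h.trans (map_zero _).symm)
  exact (nonZeroDivisors.ne_zero hb) this

omit [IsDomain B] in
theorem frac_unit (D : Der B) (y : nonZeroDivisors B) :
    IsUnit (homD D (algebraMap B K) y) := by
  rw [TrivSqZeroExt.isUnit_iff_isUnit_fst, homD_apply, fst_mkD]
  exact IsLocalization.map_units K y

/-- The ring homomorphism behind `fracDer`. -/
noncomputable def fracHom (D : Der B) : K →+* DualNumber K :=
  IsLocalization.lift (M := nonZeroDivisors B) (g := homD D (algebraMap B K)) (frac_unit K D)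

theorem fracHom_alg (D : Der B) (b : B) :
    fracHom K D (algebraMap B K b) = mkD (algebraMap B K b) (algebraMap B K (D b)) := by
  rw [fracHom, IsLocalization.lift_eq, homD_apply]

theorem fracHom_fst (D : Der B) (x : K) : TrivSqZeroExt.fst (fracHom K D x) = x := by
  obtain ⟨a, b, hb, rfl⟩ := IsFractionRing.div_surjective (A := B) x
  have hb' := algMap_ne_zero K hb
  have h1 : TrivSqZeroExt.fst (fracHom K D (algebraMap B K b)) = algebraMap B K b := by
    rw [fracHom_alg, fst_mkD]
  have h2 : TrivSqZeroExt.fst (fracHom K D (algebraMap B K a / algebraMap B K b)) *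
      TrivSqZeroExt.fst (fracHom K D (algebraMap B K b)) = algebraMap B K a := by
    rw [← TrivSqZeroExt.fst_mul, ← map_mul, div_mul_cancel₀ _ hb', fracHom_alg, fst_mkD]
  rw [h1] at h2
  rw [← mul_left_inj' hb', div_mul_cancel₀ _ hb', h2]

/-- A derivation of a domain extends to the fraction field. -/
noncomputable def fracDer (D : Der B) : Der K :=
  derOfHom (fracHom K D) (fracHom_fst K D)

theorem fracDer_alg (D : Der B) (b : B) :
    fracDer K D (algebraMap B K b) = algebraMap B K (D b) := by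
  rw [fracDer, derOfHom_apply, fracHom_alg, snd_mkD]

theorem frac_der_eq_zero (D : K → K) (hmul : ∀ a b, D (a * b) = a * D b + b * D a)
    (h : ∀ b : B, D (algebraMap B K b) = 0) (x : K) : D x = 0 := by
  obtain ⟨a, b, hb, rfl⟩ := IsFractionRing.div_surjective (A := B) x
  have hb' := algMap_ne_zero K hb
  have := hmul (algebraMap B K a / algebraMap B K b) (algebraMap B K b)
  rw [div_mul_cancel₀ _ hb', h, h, mul_zero, zero_add] at this
  exact (mul_eq_zero.mp this.symm).resolve_left hb'

/-- The differential structure on the fraction field. -/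
@[instance_reducible] noncomputable def fracDD [DD B] : DD K where
  q := (algebraMap B K).comp DD.q
  d1 := fracDer K d1
  d2 := fracDer K d2
  comm := fun x => by
    rw [← sub_eq_zero]
    refine frac_der_eq_zero (B := B) K (fun x => fracDer K (d1 : Der B) (fracDer K (d2 : Der B) x) -
      fracDer K (d2 : Der B) (fracDer K (d1 : Der B) x)) ?_ ?_ x
    · intro a b; simp [Der.leib]; ring
    · intro b; simp only [fracDer_alg, dcomm, sub_self]

theorem isD_frac [DD B] : @IsD B K _ _ _ (fracDD (B := B) K) (algebraMap B K) := by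
  let _ := fracDD (B := B) K
  exact ⟨fun a => (fracDer_alg K _ a).symm, fun a => (fracDer_alg K _ a).symm⟩

end frac

end Pool.Agent.AC215
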