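import Pool.Agent.AC215.Newton

namespace Pool.Agent.AC215

open HahnSeries Finset MvPolynomial

section div
variable {U : Type} [Field U] [DD U]

theorem charZero_of_DD (A : Type*) [CommRing A] [DD A] [Nontrivial A] : CharZero A :=
  ⟨fun m n h => by
    rw [← map_natCast (DD.q : ℚ →+* A), ← map_natCast (DD.q : ℚ →+* A)] at h
    exact_mod_cast (RingHom.injective _ h)⟩

theorem pderiv_d1 (i j : ℕ) (p : BB U) :
    pderiv ((), i + 1, j) (d1 p) = d1 (pderiv ((), i + 1, j) p) + pderiv ((), i, j) p := by
  classical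
  rw [← sub_eq_zero, ← sub_sub]
  refine mv_der_eq_zero (RingHom.id _) (fun p => pderiv ((), i + 1, j) (d1 p) - d1 (pderiv ((), i + 1, j) p) -
    pderiv ((), i, j) p) ?_ ?_ ?_ ?_ p
  · intro a b; simp only [map_add]; ring
  · intro a b
    simp only [Der.leib, map_add, pderiv_mul, RingHom.id_apply]; ring
  · intro a
    simp only [d1_C, pderiv_C, map_zero, sub_zero]
  · rintro ⟨u, k, l⟩
    cases u
    simp only [d1_X]
    rw [pderiv_X, pderiv_X, pderiv_X]
    have e0 : ∀ (x y : Unit × ℕ × ℕ), (d1 : Der (BB U)) (Pi.single (M := fun _ => BB U) x 1 y) = 0 := by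
      intro x y
      rw [Pi.single_apply]
      split_ifs
      · exact Der.one _
      · exact map_zero _
    rw [e0, sub_zero, Pi.single_apply, Pi.single_apply, sub_eq_zero]
    by_cases h : ((), k, l) = ((), i, j)
    · rw [if_pos h]
      simp only [Prod.mk.injEq, true_and] at h
      rw [if_pos (by rw [h.1, h.2])]
    · rw [if_neg h, if_neg]
      intro h'
      apply h
      simp only [Prod.mk.injEq, true_and, Nat.add_right_cancel_iff] at h'
      rw [h'.1, h'.2]

omit [DD U] in
theorem totalDegree_pderiv_lt {σ : Type*} (i : σ) (p : MvPolynomial σ U) (h : pderiv i p ≠ 0) :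
    (pderiv i p).totalDegree < p.totalDegree := by
  classical
  obtain ⟨m, hm, hmd⟩ := Finset.exists_mem_eq_sup (pderiv i p).support
    (Finset.nonempty_iff_ne_empty.mpr (fun h' => h (support_eq_empty.mp h'))) (fun s => s.sum fun _ e => e)
  rw [totalDegree, hmd]
  rw [mem_support_iff, coeff_pderiv] at hm
  have h1 : m + Finsupp.single i 1 ∈ p.support := by
    rw [mem_support_iff]
    exact left_ne_zero_of_mul hm
  have h2 := le_totalDegree h1
  have h3 : (m + Finsupp.single i 1).sum (fun _ e => e) = m.sum (fun _ e => e) + 1 := by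
    rw [Finsupp.sum_add_index' (fun _ => rfl) (fun _ _ _ => rfl), Finsupp.sum_single_index rfl]
  rw [h3] at h2
  exact h2

theorem pderiv_ne_zero {σ : Type*} {i : σ} {p : MvPolynomial σ U} (h : i ∈ p.vars) : pderiv i p ≠ 0 := by
  classical
  have := charZero_of_DD U
  rw [mem_vars_iff_mem_support] at h
  obtain ⟨m, hm, hi⟩ := h
  intro h0
  have h1 := congrArg (MvPolynomial.coeff (m - Finsupp.single i 1)) h0
  rw [coeff_pderiv, MvPolynomial.coeff_zero] at h1
  have h2 : m - Finsupp.single i 1 + Finsupp.single i 1 = m := by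
    apply tsub_add_cancel_of_le
    rw [Finsupp.single_le_iff]
    exact Nat.one_le_iff_ne_zero.mpr (Finsupp.mem_support_iff.mp hi)
  rw [h2] at h1
  rcases mul_eq_zero.mp h1 with h3 | h3
  · exact (mem_support_iff.mp hm) h3
  · exact (Nat.cast_add_one_ne_zero _) h3

/-- A differential polynomial dividing its derivative is constant. -/
theorem const_of_dvd {b : BB U} (h : b ∣ (d1 b : BB U)) : ∃ c : U, b = C c := by
  classical
  by_cases hv : b.vars = ∅
  · exact ⟨_, vars_eq_empty_iff_eq_C.mp hv⟩
  exfalso
  obtain ⟨⟨u, i, j⟩, hα, hmax⟩ := Finset.exists_max_image b.vars (fun x => x.2.1)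
    (Finset.nonempty_iff_ne_empty.mpr hv)
  cases u
  have hβ : ((), i + 1, j) ∉ b.vars := fun hm => by
    have := hmax _ hm
    simp at this
  obtain ⟨g, hg⟩ := h
  have h1 := pderiv_d1 i j b
  rw [pderiv_eq_zero_of_notMem_vars hβ, map_zero, zero_add, hg, pderiv_mul,
    pderiv_eq_zero_of_notMem_vars hβ, zero_mul, zero_add] at h1
  have h2 := pderiv_ne_zero hα
  have h4 := totalDegree_le_of_dvd_of_isDomain (Dvd.intro _ h1) h2
  exact absurd (totalDegree_pderiv_lt _ _ h2) (not_lt.mpr h4)

end div

/-- The field of fractions of the differential polynomials. -/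
def VV (U : Type) [Field U] : Type := FractionRing (BB U)

section VV
variable {U : Type} [Field U]

noncomputable instance : Field (VV U) := inferInstanceAs (Field (FractionRing (BB U)))
noncomputable instance : Algebra (BB U) (VV U) := inferInstanceAs (Algebra (BB U) (FractionRing (BB U)))
instance : IsFractionRing (BB U) (VV U) := inferInstanceAs (IsFractionRing (BB U) (FractionRing (BB U)))

variable [DD U]

noncomputable instance : DD (VV U) := fracDD (B := BB U) (VV U)

theorem isD_VV : IsD (algebraMap (BB U) (VV U)) := isD_frac (B := BB U) (VV U)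

variable {C : Type} [Field C] [Algebra C U]

noncomputable instance : Algebra C (VV U) :=
  ((algebraMap (BB U) (VV U)).comp (algebraMap C (BB U))).toAlgebra

omit [DD U] in
theorem algMap_VV (c : C) : algebraMap C (VV U) c = algebraMap (BB U) (VV U) (algebraMap C (BB U) c) := rfl

instance [IsCst C U] : IsCst C (VV U) where
  h1 c := by rw [algMap_VV, ← isD_VV.h1, IsCst.h1, map_zero]
  h2 c := by rw [algMap_VV, ← isD_VV.h2, IsCst.h2, map_zero]

omit [DD U] in
theorem VV_inj : Function.Injective (algebraMap (BB U) (VV U)) := IsFractionRing.injective _ _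

/-- The constants of `VV U` are those of `U`. -/
theorem const_VV {v : VV U} (h1 : (d1 : Der (VV U)) v = 0) (h2 : (d2 : Der (VV U)) v = 0) :
    ∃ u : U, (d1 : Der U) u = 0 ∧ (d2 : Der U) u = 0 ∧ v = algebraMap (BB U) (VV U) (MvPolynomial.C u) := by
  obtain ⟨a, b, hrel, rfl⟩ := IsFractionRing.exists_reduced_fraction (A := BB U) v
  have hb : algebraMap (BB U) (VV U) b ≠ 0 := algMap_ne_zero (VV U) b.2
  have hmk : IsLocalization.mk' (VV U) a b * algebraMap (BB U) (VV U) b = algebraMap (BB U) (VV U) a :=
    IsLocalization.mk'_spec _ _ _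
  have key : ∀ (D : Der (VV U)) (D' : Der (BB U)), (∀ p, algebraMap (BB U) (VV U) (D' p) = D (algebraMap _ _ p)) →
      D (IsLocalization.mk' (VV U) a b) = 0 → a * D' b = b * D' a := by
    intro D D' hD h0
    have e1 := congrArg D hmk
    rw [Der.leib, h0, mul_zero, add_zero, ← hD, ← hD] at e1
    apply VV_inj
    rw [map_mul, map_mul, ← e1, ← hmk]
    ring
  have e1 := key d1 d1 isD_VV.h1 h1
  have hb1 : (b : BB U) ∣ d1 (b : BB U) := by
    have : (b : BB U) ∣ a * d1 (b : BB U) := ⟨_, e1⟩
    exact hrel.symm.dvd_of_dvd_mul_left this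
  have ha1 : a ∣ d1 a := by
    have : a ∣ b * d1 a := ⟨_, e1.symm⟩
    exact hrel.dvd_of_dvd_mul_left this
  obtain ⟨cb, hcb⟩ := const_of_dvd hb1
  obtain ⟨ca, hca⟩ := const_of_dvd ha1
  have hcb0 : cb ≠ 0 := by
    rintro rfl
    rw [map_zero] at hcb
    apply hb
    rw [hcb, map_zero]
  have hv : IsLocalization.mk' (VV U) a b = algebraMap (BB U) (VV U) (MvPolynomial.C (ca / cb)) := by
    apply mul_right_cancel₀ hb
    rw [hmk, ← map_mul, hca, hcb, ← MvPolynomial.C_mul, div_mul_cancel₀ _ hcb0]
  have hinj : ∀ u : U, algebraMap (BB U) (VV U) (MvPolynomial.C u) = 0 → u = 0 := by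
    intro u hu
    have := VV_inj (hu.trans (map_zero _).symm)
    exact (MvPolynomial.C_injective (Unit × ℕ × ℕ) U) (this.trans (map_zero _).symm)
  refine ⟨ca / cb, ?_, ?_, hv⟩
  · rw [hv, ← isD_VV.h1, d1_C] at h1
    exact hinj _ h1
  · rw [hv, ← isD_VV.h2, d2_C] at h2
    exact hinj _ h2

end VV

section inv
variable {K : Type} [Field K] [DD K]

/-- Left inverses in `SR K`, for a field `K`. -/
theorem exists_left_inv {a : SR K} (ha : a ≠ 0) : ∃ w : SR K, w * a = 1 := by
  by_contra hcon
  push Not at hcon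
  obtain ⟨α, hα1, hα2⟩ := SR.exists_order ha
  have hb : ∀ w : SR K, ∃ ν, (1 - w * a).Ge ν ∧ (1 - w * a).co ν ≠ 0 := fun w =>
    SR.exists_order (fun h => hcon w (sub_eq_zero.mp h).symm)
  choose ν hν using hb
  refine spherical (fun w => ν w - α) (fun x y hxy => ?_) (fun x => ?_)
  · have h1 : (1 - y * a).Ge (ν x) := by
      have e : 1 - y * a = (1 - x * a) - (y - x) * a := by noncomm_ring
      rw [e]
      refine (hν x).1.sub ((hxy.mul hα1).mono ?_)
      linarith
    by_contra hlt
    rw [not_le] at hlt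
    exact (hν y).2 (h1 _ (by linarith))
  · refine ⟨x + sg (ν x - α) ((1 - x * a).co (ν x) / a.co α), ?_, ?_⟩
    · rw [add_sub_cancel_left]
      intro q hq
      exact sg_co_ne hq.ne _
    · set c := (1 - x * a).co (ν x) / a.co α with hc
      have hsg : (sg (ν x - α) c : SR K).Ge (ν x - α) := fun q hq => sg_co_ne hq.ne _
      have e : 1 - (x + sg (ν x - α) c) * a = (1 - x * a) - sg (ν x - α) c * a := by noncomm_ring
      have h1 : (1 - (x + sg (ν x - α) c) * a).Ge (ν x) := by
        rw [e]
        refine (hν x).1.sub ((hsg.mul hα1).mono ?_)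
        linarith
      have h2 : (1 - (x + sg (ν x - α) c) * a).co (ν x) = 0 := by
        rw [e, SR.co_sub]
        have := hsg.co_mul hα1
        rw [sub_add_cancel, sg_co_same] at this
        rw [this, hc, div_mul_cancel₀ _ hα2, sub_self]
      have h3 := hν (x + sg (ν x - α) c)
      have h4 : ν x < ν (x + sg (ν x - α) c) := by
        by_contra hlt
        rw [not_lt] at hlt
        rcases hlt.lt_or_eq with h | h
        · exact h3.2 (h1 _ h)
        · rw [h] at h3; exact h3.2 h2
      linarith

end inv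

section comm
variable {A : Type} [CommRing A] [DD A]

theorem fi_zero : fi A 0 = 1 := by simp [fi]
theorem fi_one : fi A 1 = 1 := by simp [fi]

/-- Commutation with `t` where `d1 t = 1`, `d2 t = 0`. -/
theorem t1_mul {t : A} (h1 : (d1 : Der A) t = 1) (x : SR A) (q : ℚ) :
    (sg 0 t * x).co q = t * x.co q + (d2 : Der A) (x.co (q - 1)) := by
  have key : ∀ y : HahnSeries ℚ A, (star (single 0 t) y).coeff q =
      t * y.coeff q + (d2 : Der A) (y.coeff (q - 1)) := by
    intro y
    have e1 : (D1 : Der (HahnSeries ℚ A)) (single 0 t) = single 0 1 := by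
      ext q
      rw [hD_coeff]
      by_cases h : q = 0
      · rw [h, coeff_single_same, coeff_single_same, h1]
      · rw [coeff_single_of_ne h, coeff_single_of_ne h, map_zero]
    have e2 : (D1 : Der (HahnSeries ℚ A)) (single 0 1) = 0 := Der.one _
    rw [star_eq_PN 2, PN, sum_range_succ, sum_range_one, HahnSeries.coeff_add, tm, tm]
    · rw [coeff_single_mul, coeff_single_mul]
      simp only [Function.iterate_zero, id_eq, Function.iterate_one, e1, fi_zero, fi_one, Nat.cast_zero,
        Nat.cast_one, sub_zero, one_mul]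
      rw [coeff_single_mul, coeff_single_mul, hD_coeff, sub_zero, sub_zero, one_mul]
    · intro n hn
      obtain ⟨m, rfl⟩ : ∃ m, n = m + 2 := ⟨n - 2, by omega⟩
      rw [tm, Function.iterate_add_apply (f := D1), Function.iterate_succ_apply, Function.iterate_one, e1, e2, iter_zero,
        zero_mul, mul_zero]
  exact key x

theorem mul_t2 {t : A} (h2 : (d2 : Der A) t = 1) (x : SR A) (q : ℚ) :
    (x * sg 0 t).co q = x.co q * t + (d1 : Der A) (x.co (q - 1)) := by
  have key : ∀ y : HahnSeries ℚ A, (star y (single 0 t)).coeff q =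
      y.coeff q * t + (d1 : Der A) (y.coeff (q - 1)) := by
    intro y
    have e1 : (D2 : Der (HahnSeries ℚ A)) (single 0 t) = single 0 1 := by
      ext q
      rw [hD_coeff]
      by_cases h : q = 0
      · rw [h, coeff_single_same, coeff_single_same, h2]
      · rw [coeff_single_of_ne h, coeff_single_of_ne h, map_zero]
    have e2 : (D2 : Der (HahnSeries ℚ A)) (single 0 1) = 0 := Der.one _
    rw [star_eq_PN 2, PN, sum_range_succ, sum_range_one, HahnSeries.coeff_add, tm, tm]
    · rw [coeff_single_mul, coeff_single_mul]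
      simp only [Function.iterate_zero, id_eq, Function.iterate_one, e1, fi_zero, fi_one, Nat.cast_zero,
        Nat.cast_one, sub_zero, one_mul]
      rw [coeff_mul_single, coeff_mul_single, hD_coeff, sub_zero, sub_zero, mul_one]
    · intro n hn
      obtain ⟨m, rfl⟩ : ∃ m, n = m + 2 := ⟨n - 2, by omega⟩
      have e3 : (D2 : Der (HahnSeries ℚ A))^[2] (single 0 t) = 0 := by
        rw [Function.iterate_succ_apply, Function.iterate_one, e1, e2]
      rw [tm, Function.iterate_add_apply (f := D2), e3, iter_zero, mul_zero, mul_zero]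
  exact key x

end comm

end Pool.Agent.AC215
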