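import Pool.Agent.AC215.Frac

namespace Pool.Agent.AC215

open HahnSeries Finset TensorProduct
open Pool.Agent.Results.MP_4b1745_al.OneVariable

section lemW

/-- Independence of two-sided multiplications, in a ring with left inverses. -/
theorem lemW {P Q : Type} [Field P] [Ring Q] [Nontrivial Q] [Algebra P Q]
    (hinv : ∀ a : Q, a ≠ 0 → ∃ w, w * a = 1) (Y : Set Q) (h1 : 1 ∈ Y) (t1 t2 : Q)
    {ι : Type} (v : ι → Q) (hv : LinearIndependent P v)
    (ht : ∀ u : ι →₀ Q, (∀ y ∈ Y, (u.sum fun i a => a * y * v i) = 0) →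
      ∀ y ∈ Y, (u.sum fun i a => a * (t1 * y) * v i) = 0 ∧ (u.sum fun i a => a * (t2 * y) * v i) = 0)
    (hcent : ∀ a : Q, t1 * a = a * t1 → t2 * a = a * t2 → ∃ p : P, a = algebraMap P Q p)
    (u : ι →₀ Q) (hu : ∀ y ∈ Y, (u.sum fun i a => a * y * v i) = 0) : u = 0 := by
  classical
  suffices H : ∀ n : ℕ, ∀ u : ι →₀ Q, u.support.card = n →
      (∀ y ∈ Y, (u.sum fun i a => a * y * v i) = 0) → u = 0 from H _ u rfl hu
  intro n
  induction n using Nat.strong_induction_on with
  | _ n ih =>
  intro u hn hu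
  by_contra hne
  obtain ⟨i0, hi0⟩ := Finsupp.support_nonempty_iff.mpr hne
  obtain ⟨w, hw⟩ := hinv _ (Finsupp.mem_support_iff.mp hi0)
  set u' : ι →₀ Q := u.mapRange (fun a => w * a) (mul_zero w) with hu'
  have hsub : u'.support ⊆ u.support := Finsupp.support_mapRange
  have hu'0 : u' i0 = 1 := by rw [hu', Finsupp.mapRange_apply, hw]
  have hrel : ∀ y ∈ Y, (u'.sum fun i a => a * y * v i) = 0 := by
    intro y hy
    rw [hu', Finsupp.sum_mapRange_index (fun i => by rw [zero_mul, zero_mul])]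
    have : (u.sum fun i a => w * a * y * v i) = w * (u.sum fun i a => a * y * v i) := by
      rw [Finsupp.sum, Finsupp.sum, mul_sum]
      exact sum_congr rfl fun i _ => by noncomm_ring
    rw [this, hu y hy, mul_zero]
  have key : ∀ t : Q, (∀ y ∈ Y, (u'.sum fun i a => a * (t * y) * v i) = 0) → ∀ i, t * u' i = u' i * t := by
    intro t htt
    set u2 : ι →₀ Q := u'.mapRange (fun a => t * a - a * t) (by rw [mul_zero, zero_mul, sub_zero]) with hu2
    have hs2 : u2.support ⊆ u.support.erase i0 := by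
      intro i hi
      rw [Finset.mem_erase]
      refine ⟨?_, hsub (Finsupp.support_mapRange hi)⟩
      rintro rfl
      rw [Finsupp.mem_support_iff, hu2, Finsupp.mapRange_apply, hu'0, mul_one, one_mul, sub_self] at hi
      exact hi rfl
    have hc : u2.support.card < n := by
      refine (Finset.card_le_card hs2).trans_lt ?_
      rw [← hn]
      exact Finset.card_erase_lt_of_mem hi0
    have h0 : u2 = 0 := by
      refine ih _ hc u2 rfl fun y hy => ?_
      rw [hu2, Finsupp.sum_mapRange_index (fun i => by rw [zero_mul, zero_mul])]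
      have : (u'.sum fun i a => (t * a - a * t) * y * v i) =
          t * (u'.sum fun i a => a * y * v i) - (u'.sum fun i a => a * (t * y) * v i) := by
        rw [Finsupp.sum, Finsupp.sum, Finsupp.sum, mul_sum, ← sum_sub_distrib]
        exact sum_congr rfl fun i _ => by noncomm_ring
      rw [this, hrel y hy, htt y hy, mul_zero, sub_zero]
    intro i
    have := DFunLike.congr_fun h0 i
    rw [hu2, Finsupp.mapRange_apply, Finsupp.coe_zero, Pi.zero_apply, sub_eq_zero] at this
    exact this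
  have k1 := key t1 fun y hy => (ht u' hrel y hy).1
  have k2 := key t2 fun y hy => (ht u' hrel y hy).2
  choose p hp using fun i => hcent (u' i) (k1 i) (k2 i)
  have hp0 : ∀ i ∈ u'.support, p i = 0 := by
    refine linearIndependent_iff'.mp hv u'.support p ?_
    have := hrel 1 h1
    rw [Finsupp.sum] at this
    rw [← this]
    refine sum_congr rfl fun i _ => ?_
    rw [mul_one, hp i, Algebra.smul_def]
  have h2 : i0 ∈ u'.support := by
    rw [Finsupp.mem_support_iff, hu'0]; exact one_ne_zero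
  have h3 := hp i0
  rw [hp0 i0 h2, map_zero, hu'0] at h3
  exact one_ne_zero h3

end lemW

section fil
variable {P R : Type} [Field P] [Ring R] [Algebra P R]

/-- The filtration of the free product by degree. -/
inductive Deg : ℕ → FreeOver P R Unit → Prop
  | base (a : R) : Deg 0 (const P R Unit a)
  | add {n : ℕ} {f g : FreeOver P R Unit} : Deg n f → Deg n g → Deg n (f + g)
  | up {n : ℕ} {f : FreeOver P R Unit} : Deg n f → Deg (n + 1) f
  | mulx {n : ℕ} {f : FreeOver P R Unit} (a : R) : Deg n f → Deg (n + 1) (f * var P R Unit () * const P R Unit a)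

theorem Deg.mono {n m : ℕ} {f : FreeOver P R Unit} (h : Deg n f) (hnm : n ≤ m) : Deg m f := by
  induction m, hnm using Nat.le_induction with
  | base => exact h
  | succ m _ ih => exact ih.up

theorem Deg.mul_const {n : ℕ} {f : FreeOver P R Unit} (h : Deg n f) (a : R) :
    Deg n (f * const P R Unit a) := by
  induction h with
  | base b => rw [← map_mul]; exact Deg.base _
  | add _ _ h1 h2 => rw [add_mul]; exact h1.add h2
  | up _ h1 => exact h1.up
  | mulx b h1 _ => rw [mul_assoc, ← map_mul]; exact h1.mulx _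

theorem Deg.mul {m n : ℕ} {f g : FreeOver P R Unit} (hf : Deg m f) (hg : Deg n g) :
    Deg (m + n) (f * g) := by
  induction hg with
  | base b => exact hf.mul_const b
  | add _ _ h1 h2 => rw [mul_add]; exact h1.add h2
  | up _ h1 => rw [← add_assoc]; exact h1.up
  | mulx b _ h1 => rw [← mul_assoc, ← mul_assoc, ← add_assoc]; exact h1.mulx b

theorem exists_deg (f : FreeOver P R Unit) : ∃ n, Deg n f := by
  refine induct (C := fun f => ∃ n, Deg n f) ?_ ?_ ?_ ?_ f
  · intro a; exact ⟨0, Deg.base a⟩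
  · intro i
    cases i
    refine ⟨1, ?_⟩
    have := (Deg.base (P := P) (1 : R)).mulx 1
    rwa [map_one, one_mul, mul_one] at this
  · rintro f g ⟨m, hm⟩ ⟨n, hn⟩
    exact ⟨max m n, (hm.mono (le_max_left _ _)).add (hn.mono (le_max_right _ _))⟩
  · rintro f g ⟨m, hm⟩ ⟨n, hn⟩
    exact ⟨m + n, hm.mul hn⟩

theorem Deg.smul {n : ℕ} {f : FreeOver P R Unit} (h : Deg n f) (r : P) : Deg n (r • f) := by
  induction h with
  | base b => rw [← map_smul]; exact Deg.base _
  | add _ _ h1 h2 => rw [smul_add]; exact h1.add h2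
  | up _ h1 => exact h1.up
  | mulx b h1 _ => rw [← mul_smul_comm, ← map_smul]; exact h1.mulx _

theorem Deg.exists_const {f : FreeOver P R Unit} (h : Deg 0 f) : ∃ a, f = const P R Unit a := by
  generalize hn : 0 = n at h
  induction h with
  | base b => exact ⟨b, rfl⟩
  | add _ _ h1 h2 =>
    obtain ⟨a, rfl⟩ := h1 hn
    obtain ⟨b, rfl⟩ := h2 hn
    exact ⟨a + b, (map_add _ _ _).symm⟩
  | up _ _ => exact absurd hn (by omega)
  | mulx _ _ _ => exact absurd hn (by omega)

/-- The filtration as submodules. -/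
def Fil (P R : Type) [Field P] [Ring R] [Algebra P R] (n : ℕ) : Submodule P (FreeOver P R Unit) where
  carrier := {f | Deg n f}
  zero_mem' := by
    have : Deg (P := P) (R := R) 0 0 := by
      have := Deg.base (P := P) (0 : R)
      rwa [map_zero] at this
    exact this.mono (Nat.zero_le n)
  add_mem' := Deg.add
  smul_mem' r _ h := Deg.smul h r

theorem mem_Fil {n : ℕ} {f : FreeOver P R Unit} : f ∈ Fil P R n ↔ Deg n f := Iff.rfl

/-- The inclusion. -/
noncomputable def inc (P R : Type) [Field P] [Ring R] [Algebra P R] (n : ℕ) : Fil P R n →ₗ[P] Fil P R (n + 1) :=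
  Submodule.inclusion (fun _ h => Deg.up h)

/-- Right multiplication by `x a`. -/
noncomputable def mx {P R : Type} [Field P] [Ring R] [Algebra P R] (n : ℕ) (a : R) :
    Fil P R n →ₗ[P] Fil P R (n + 1) where
  toFun f := ⟨f.1 * var P R Unit () * const P R Unit a, Deg.mulx a f.2⟩
  map_add' f g := by ext1; simp [add_mul]
  map_smul' r f := by ext1; simp

variable {E : Type} [Ring E] [Algebra P E]

/-- The linear part of `f(b + y s)`. -/
noncomputable def lin (ρ : R →ₐ[P] E) (b y : E) (f : FreeOver P R Unit) : E :=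
  (ev1 ((Polynomial.CAlgHom (R := P)).comp ρ) (Polynomial.C b + Polynomial.C y * Polynomial.X) f).coeff 1

/-- The two-sided multiplication `g ⊗ h ↦ g(b) y h(b)`. -/
noncomputable def sand (ρ : R →ₐ[P] E) (b y : E) (n : ℕ) : Fil P R n ⊗[P] Fil P R n →ₗ[P] E :=
  TensorProduct.lift (LinearMap.mk₂ P (fun g h => ev1 ρ b g.1 * y * ev1 ρ b h.1)
    (fun _ _ _ => by simp [add_mul]) (fun _ _ _ => by simp) (fun _ _ _ => by simp [mul_add])
    (fun _ _ _ => by simp))

theorem sand_tmul (ρ : R →ₐ[P] E) (b y : E) (n : ℕ) (g h : Fil P R n) :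
    sand ρ b y n (g ⊗ₜ h) = ev1 ρ b g.1 * y * ev1 ρ b h.1 := rfl

theorem sand_inc (ρ : R →ₐ[P] E) (b y : E) (n : ℕ) (t : Fil P R n ⊗[P] Fil P R n) :
    sand ρ b y (n + 1) (TensorProduct.map (inc P R n) (inc P R n) t) = sand ρ b y n t := by
  induction t using TensorProduct.induction_on with
  | zero => simp
  | tmul g h => rfl
  | add a b ha hb => rw [map_add, map_add, ha, hb, map_add]

theorem sand_mx (ρ : R →ₐ[P] E) (b y : E) (n : ℕ) (a : R) (t : Fil P R n ⊗[P] Fil P R n) :
    sand ρ b y (n + 1) (TensorProduct.map (inc P R n) (mx n a) t) = sand ρ b y n t * (b * ρ a) := by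
  induction t using TensorProduct.induction_on with
  | zero => simp
  | tmul g h =>
    rw [TensorProduct.map_tmul, sand_tmul, sand_tmul]
    change ev1 ρ b g.1 * y * ev1 ρ b (h.1 * var P R Unit () * const P R Unit a) = _
    rw [map_mul, map_mul, ev1_const, ev1_var]
    noncomm_ring
  | add a b ha hb => rw [map_add, map_add, ha, hb, map_add, add_mul]

theorem coeff_zero_ev (ρ : R →ₐ[P] E) (b y : E) (f : FreeOver P R Unit) :
    (ev1 ((Polynomial.CAlgHom (R := P)).comp ρ) (Polynomial.C b + Polynomial.C y * Polynomial.X) f).coeff 0 =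
      ev1 ρ b f := by
  refine induct (C := fun f => (ev1 ((Polynomial.CAlgHom (R := P)).comp ρ)
    (Polynomial.C b + Polynomial.C y * Polynomial.X) f).coeff 0 = ev1 ρ b f) ?_ ?_ ?_ ?_ f
  · intro a; simp
  · intro i; cases i; simp
  · intro f g hf hg
    rw [map_add, Polynomial.coeff_add, hf, hg, map_add]
  · intro f g hf hg
    rw [map_mul, Polynomial.mul_coeff_zero, hf, hg, map_mul]

theorem lin_const (ρ : R →ₐ[P] E) (b y : E) (a : R) : lin ρ b y (const P R Unit a) = 0 := by
  rw [lin, ev1_const]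
  change (Polynomial.C (ρ a)).coeff 1 = 0
  rw [Polynomial.coeff_C_succ]

theorem lin_var (ρ : R →ₐ[P] E) (b y : E) : lin ρ b y (var P R Unit ()) = y := by
  rw [lin, ev1_var, Polynomial.coeff_add, Polynomial.coeff_C_succ, Polynomial.coeff_C_mul,
    Polynomial.coeff_X_one, zero_add, mul_one]

theorem lin_add (ρ : R →ₐ[P] E) (b y : E) (f g : FreeOver P R Unit) :
    lin ρ b y (f + g) = lin ρ b y f + lin ρ b y g := by
  rw [lin, map_add, Polynomial.coeff_add]; rfl

theorem lin_mul (ρ : R →ₐ[P] E) (b y : E) (f g : FreeOver P R Unit) :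
    lin ρ b y (f * g) = ev1 ρ b f * lin ρ b y g + lin ρ b y f * ev1 ρ b g := by
  rw [lin, map_mul, Polynomial.mul_coeff_one, coeff_zero_ev, coeff_zero_ev]; rfl

/-- The linear part as a two-sided multiplication. -/
theorem lin_exists {n : ℕ} {f : FreeOver P R Unit} (h : Deg n f) :
    (n = 0 → ∀ (E : Type) [Ring E] [Algebra P E] (ρ : R →ₐ[P] E) (b y : E), lin ρ b y f = 0) ∧
    ∀ k, n = k + 1 → ∃ t : Fil P R k ⊗[P] Fil P R k,
      ∀ (E : Type) [Ring E] [Algebra P E] (ρ : R →ₐ[P] E) (b y : E), lin ρ b y f = sand ρ b y k t := by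
  induction h with
  | base a => exact ⟨fun _ E _ _ ρ b y => lin_const ρ b y a, fun k hk => absurd hk (by omega)⟩
  | add _ _ h1 h2 =>
    refine ⟨fun hn E _ _ ρ b y => by rw [lin_add, h1.1 hn, h2.1 hn, add_zero], fun k hk => ?_⟩
    obtain ⟨t1, ht1⟩ := h1.2 k hk
    obtain ⟨t2, ht2⟩ := h2.2 k hk
    exact ⟨t1 + t2, fun E _ _ ρ b y => by rw [lin_add, ht1, ht2, map_add]⟩
  | @up n f _ h1 =>
    refine ⟨fun hn => absurd hn (by omega), fun k hk => ?_⟩
    obtain rfl : n = k := by omega
    cases n with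
    | zero => exact ⟨0, fun E _ _ ρ b y => by rw [h1.1 rfl, map_zero]⟩
    | succ m =>
      obtain ⟨t, ht⟩ := h1.2 m rfl
      exact ⟨TensorProduct.map (inc P R m) (inc P R m) t, fun E _ _ ρ b y => by rw [sand_inc, ht]⟩
  | @mulx n f a hf h1 =>
    refine ⟨fun hn => absurd hn (by omega), fun k hk => ?_⟩
    obtain rfl : n = k := by omega
    have hfa : ∀ (E : Type) [Ring E] [Algebra P E] (ρ : R →ₐ[P] E) (b y : E),
        lin ρ b y (f * var P R Unit () * const P R Unit a) =
          lin ρ b y f * (b * ρ a) + ev1 ρ b f * y * ρ a := by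
      intro E _ _ ρ b y
      rw [lin_mul, lin_mul, lin_const, lin_var, ev1_const, ev1_var, mul_zero, zero_add]
      noncomm_ring
    have hc : const P R Unit a ∈ Fil P R n := (Deg.base a).mono (Nat.zero_le n)
    cases n with
    | zero =>
      refine ⟨(⟨f, hf⟩ : Fil P R 0) ⊗ₜ ⟨_, hc⟩, fun E _ _ ρ b y => ?_⟩
      rw [hfa, h1.1 rfl, zero_mul, zero_add, sand_tmul, ev1_const]
    | succ m =>
      obtain ⟨t, ht⟩ := h1.2 m rfl
      refine ⟨TensorProduct.map (inc P R m) (mx m a) t + (⟨f, hf⟩ : Fil P R (m + 1)) ⊗ₜ ⟨_, hc⟩,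
        fun E _ _ ρ b y => ?_⟩
      rw [hfa, ht, map_add, sand_mx, sand_tmul, ev1_const]

end fil

end Pool.Agent.AC215
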