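import Pool.Agent.AC215.GPI

namespace Pool.Agent.AC215

open HahnSeries Finset TensorProduct
open Pool.Agent.Results.MP_4b1745_al.OneVariable

section euler
variable {P R : Type} [Field P] [Ring R] [Algebra P R]

/-- Evaluation at a central element. -/
noncomputable def evk {E : Type} [Ring E] [Algebra P E] (κ : E) (hκ : ∀ a : E, a * κ = κ * a) :
    Polynomial E →ₐ[P] E :=
  { Polynomial.eval₂RingHom' (RingHom.id E) κ (fun a => hκ a) with
    commutes' := fun p => by
      change Polynomial.eval₂ (RingHom.id E) κ (Polynomial.C (algebraMap P E p)) = _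
      rw [Polynomial.eval₂_C]; rfl }

theorem evk_C {E : Type} [Ring E] [Algebra P E] (κ : E) (hκ : ∀ a : E, a * κ = κ * a) (a : E) :
    evk (P := P) κ hκ (Polynomial.C a) = a := by
  change Polynomial.eval₂ (RingHom.id E) κ (Polynomial.C a) = a
  rw [Polynomial.eval₂_C]; rfl

theorem evk_X {E : Type} [Ring E] [Algebra P E] (κ : E) (hκ : ∀ a : E, a * κ = κ * a) :
    evk (P := P) κ hκ Polynomial.X = κ := by
  change Polynomial.eval₂ (RingHom.id E) κ Polynomial.X = κ
  rw [Polynomial.eval₂_X]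

/-- The homogenization `x ↦ x s`. -/
noncomputable def hom1 : FreeOver P R Unit →ₐ[P] Polynomial (FreeOver P R Unit) :=
  ev1 ((Polynomial.CAlgHom (R := P)).comp (const P R Unit)) (Polynomial.C (var P R Unit ()) * Polynomial.X)

theorem lin_hom1 (f : FreeOver P R Unit) :
    lin ((Polynomial.CAlgHom (R := P)).comp (const P R Unit)) (Polynomial.C (var P R Unit ()) * Polynomial.X)
      (Polynomial.C (var P R Unit ())) f = Polynomial.derivative (hom1 f) := by
  refine induct (C := fun f => lin ((Polynomial.CAlgHom (R := P)).comp (const P R Unit))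
    (Polynomial.C (var P R Unit ()) * Polynomial.X)
      (Polynomial.C (var P R Unit ())) f = Polynomial.derivative (hom1 f)) ?_ ?_ ?_ ?_ f
  · intro a
    rw [lin_const, hom1, ev1_const]
    change 0 = Polynomial.derivative (Polynomial.C _)
    rw [Polynomial.derivative_C]
  · intro i; cases i
    rw [lin_var, hom1, ev1_var, Polynomial.derivative_C_mul, Polynomial.derivative_X, mul_one]
  · intro f g hf hg
    rw [lin_add, hf, hg, map_add, Polynomial.derivative_add]
  · intro f g hf hg
    rw [lin_mul, hf, hg, map_mul, Polynomial.derivative_mul, add_comm]; rfl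

theorem eq_const_of_lin [CharZero P] {f : FreeOver P R Unit}
    (h : ∀ (E : Type) [Ring E] [Algebra P E] (ρ : R →ₐ[P] E) (b y : E), lin ρ b y f = 0) :
    ∃ a, f = const P R Unit a := by
  have h1 : Polynomial.derivative (hom1 f) = 0 := by rw [← lin_hom1]; exact h _ _ _ _
  have h2 : ∀ k, (hom1 f).coeff (k + 1) = 0 := by
    intro k
    have e := congrArg (fun p => Polynomial.coeff p k) h1
    simp only [Polynomial.coeff_derivative, Polynomial.coeff_zero] at e
    have e2 : ((k : FreeOver P R Unit) + 1) * algebraMap P _ (((k : P) + 1)⁻¹) = 1 := by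
      have : ((k : FreeOver P R Unit) + 1) = algebraMap P _ ((k : P) + 1) := by simp
      rw [this, ← map_mul, mul_inv_cancel₀ (Nat.cast_add_one_ne_zero k), map_one]
    calc (hom1 f).coeff (k + 1) = (hom1 f).coeff (k + 1) * (((k : FreeOver P R Unit) + 1) * algebraMap P _ (((k : P) + 1)⁻¹)) := by
            rw [e2, mul_one]
      _ = 0 := by rw [← mul_assoc, e, zero_mul]
  have h3 : hom1 f = Polynomial.C ((hom1 f).coeff 0) := by
    ext1 d
    rw [Polynomial.coeff_C]
    split_ifs with hd
    · rw [hd]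
    · obtain ⟨k, rfl⟩ : ∃ k, d = k + 1 := ⟨d - 1, by omega⟩
      exact h2 k
  have hone : ∀ a : FreeOver P R Unit, a * 1 = 1 * a := fun a => by rw [mul_one, one_mul]
  have hzero : ∀ a : FreeOver P R Unit, a * 0 = 0 * a := fun a => by rw [mul_zero, zero_mul]
  have e1 : evk (P := P) 1 hone (hom1 f) = f := by
    rw [hom1, comp_ev1, map_mul, evk_C, evk_X, mul_one]
    refine free_ext (ψ := ev1 ((evk (P := P) 1 hone).comp ((Polynomial.CAlgHom (R := P)).comp (const P R Unit)))
      (var P R Unit ())) (χ := AlgHom.id _ _) (fun a => ?_) ?_ f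
    · rw [ev1_const]
      exact evk_C (P := P) _ hone _
    · rw [ev1_var]; rfl
  have e0 : evk (P := P) 0 hzero (hom1 f) = const P R Unit (ev1 (AlgHom.id P R) 0 f) := by
    rw [hom1, comp_ev1, map_mul, evk_C, evk_X, mul_zero, comp_ev1, map_zero]
    refine free_ext (ψ := ev1 ((evk (P := P) 0 hzero).comp ((Polynomial.CAlgHom (R := P)).comp (const P R Unit)))
      0) (χ := ev1 ((const P R Unit).comp (AlgHom.id P R)) 0) (fun a => ?_) ?_ f
    · rw [ev1_const, ev1_const]
      exact evk_C (P := P) _ hzero _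
    · rw [ev1_var, ev1_var]
  rw [h3, evk_C] at e1 e0
  exact ⟨_, e1.symm.trans e0⟩

theorem sand_comp {E E' : Type} [Ring E] [Algebra P E] [Ring E'] [Algebra P E'] (ψ : E →ₐ[P] E')
    (ρ : R →ₐ[P] E) (b y : E) (n : ℕ) (t : Fil P R n ⊗[P] Fil P R n) :
    sand (ψ.comp ρ) (ψ b) (ψ y) n t = ψ (sand ρ b y n t) := by
  induction t using TensorProduct.induction_on with
  | zero => simp
  | tmul g h => rw [sand_tmul, sand_tmul, map_mul, map_mul, comp_ev1, comp_ev1]
  | add a b ha hb => rw [map_add, map_add, ha, hb, map_add]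

end euler

section main
variable {C U : Type} [Field C] [Field U] [DD U] [Algebra C U] [IsCst C U]

variable (C U) in
/-- The inclusion of `S` into the ring over the fraction field. -/
noncomputable def mapV : SR (BB U) →ₐ[HahnSeries ℚ C] SR (VV U) :=
  mapA (algebraMap (BB U) (VV U)) isD_VV (fun _ => rfl)

theorem mapV_inj : Function.Injective (mapV C U) := by
  intro x y h
  apply SR.ext'
  intro q
  exact VV_inj (congrArg (fun z => SR.co z q) h)

theorem iota_inj : Function.Injective (iota C U) := by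
  intro x y h
  apply SR.ext'
  intro q
  exact MvPolynomial.C_injective _ _ (congrArg (fun z => SR.co z q) h)

theorem lin_zero {f : FreeOver (HahnSeries ℚ C) (SR U) Unit} (hf : ev1 (iota C U) XX f = 0) (y : BB U) :
    lin (iota C U) XX (sg 0 y) f = 0 := by
  apply SR.ext'
  intro q
  have := lam (C := C) 0 q (ev1 ((Polynomial.CAlgHom (R := HahnSeries ℚ C)).comp (iota C U))
    (Polynomial.C XX + Polynomial.C (sg 0 y) * Polynomial.X) f) 0 (fun r => ?_) 1 le_rfl
  · rwa [Nat.cast_one, one_mul, sub_zero] at this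
  · rw [comp_ev1, evh_CAlg, map_add, map_mul, evh_C, evh_C, evh_X]
    have e1 : XX + sg 0 y * hs 0 r = sub C (x0 + y * DD.q r) XX := by
      rw [sub_XX, sg_add, hs, sg_mul_sg (dq2 r), add_zero]; rfl
    have e2 : ev1 (iota C U) (sub C (x0 + y * DD.q r) XX) f = sub C (x0 + y * DD.q r) (ev1 (iota C U) XX f) := by
      rw [comp_ev1, sub_iota]
    rw [e1, e2, hf, map_zero, SR.co_zero]

theorem cent {t1 t2 : U} (h11 : (d1 : Der U) t1 = 1) (h21 : (d2 : Der U) t1 = 0)
    (h12 : (d1 : Der U) t2 = 0) (h22 : (d2 : Der U) t2 = 1)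
    (hC : ∀ u : U, (d1 : Der U) u = 0 → (d2 : Der U) u = 0 → ∃ c : C, algebraMap C U c = u)
    (a : SR (VV U))
    (c1 : sg 0 (algebraMap (BB U) (VV U) (MvPolynomial.C t1)) * a = a * sg 0 (algebraMap (BB U) (VV U) (MvPolynomial.C t1)))
    (c2 : sg 0 (algebraMap (BB U) (VV U) (MvPolynomial.C t2)) * a = a * sg 0 (algebraMap (BB U) (VV U) (MvPolynomial.C t2))) :
    ∃ p : HahnSeries ℚ C, a = algebraMap (HahnSeries ℚ C) (SR (VV U)) p := by
  have k11 : (d1 : Der (VV U)) (algebraMap (BB U) (VV U) (MvPolynomial.C t1)) = 1 := by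
    rw [← isD_VV.h1, d1_C, h11, map_one, map_one]
  have k21 : (d2 : Der (VV U)) (algebraMap (BB U) (VV U) (MvPolynomial.C t1)) = 0 := by
    rw [← isD_VV.h2, d2_C, h21, map_zero, map_zero]
  have k12 : (d1 : Der (VV U)) (algebraMap (BB U) (VV U) (MvPolynomial.C t2)) = 0 := by
    rw [← isD_VV.h1, d1_C, h12, map_zero, map_zero]
  have k22 : (d2 : Der (VV U)) (algebraMap (BB U) (VV U) (MvPolynomial.C t2)) = 1 := by
    rw [← isD_VV.h2, d2_C, h22, map_one, map_one]
  have a2 : ∀ q, (d2 : Der (VV U)) (a.co q) = 0 := by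
    intro q
    have := congrArg (fun z => SR.co z (q + 1)) c1
    simp only [t1_mul k11, mul_sg_co _ k21, sub_zero, add_sub_cancel_right] at this
    linear_combination this
  have a1 : ∀ q, (d1 : Der (VV U)) (a.co q) = 0 := by
    intro q
    have := congrArg (fun z => SR.co z (q + 1)) c2
    simp only [mul_t2 k22, sg_mul_co _ k12, sub_zero, add_sub_cancel_right] at this
    linear_combination -this
  have hc : ∀ q, ∃ c : C, algebraMap C (VV U) c = a.co q := by
    intro q
    obtain ⟨u, hu1, hu2, hu⟩ := const_VV (a1 q) (a2 q)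
    obtain ⟨c, hc⟩ := hC u hu1 hu2
    refine ⟨c, ?_⟩
    rw [hu, ← hc]
    rfl
  choose c hc using hc
  have hpwo : (Function.support c).IsPWO := by
    refine (HahnSeries.isPWO_support (a : HahnSeries ℚ (VV U))).mono ?_
    intro q hq h
    apply hq
    have h' : a.co q = 0 := h
    rw [← hc q] at h'
    exact (map_eq_zero (algebraMap C (VV U))).mp h'
  refine ⟨⟨c, hpwo⟩, ?_⟩
  apply SR.ext'
  intro q
  exact (hc q).symm

theorem closure_t1 {t1 : U} (h11 : (d1 : Der U) t1 = 1) {ι : Type} (v : ι → SR (VV U))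
    (w : ι →₀ SR (VV U))
    (hw : ∀ y ∈ {y : SR (VV U) | ∃ b : BB U, y = sg 0 (algebraMap (BB U) (VV U) b)},
      (w.sum fun i a => a * y * v i) = 0) (b : BB U) :
    (w.sum fun i a => a * (sg 0 (algebraMap (BB U) (VV U) (MvPolynomial.C t1)) *
                sg 0 (algebraMap (BB U) (VV U) b)) * v i) = 0 := by
  have k11 : (d1 : Der (VV U)) (algebraMap (BB U) (VV U) (MvPolynomial.C t1)) = 1 := by
    rw [← isD_VV.h1, d1_C, h11, map_one, map_one]
  have e1 : sg 0 (algebraMap (BB U) (VV U) (MvPolynomial.C t1)) * sg 0 (algebraMap (BB U) (VV U) b) =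
      sg 0 (algebraMap (BB U) (VV U) (MvPolynomial.C t1 * b)) +
      sg 0 (algebraMap (BB U) (VV U) (d2 b)) * hs 1 1 := by
    apply SR.ext'
    intro q
    rw [t1_mul k11, SR.co_add, mul_hs_co, map_one, mul_one, map_mul, isD_VV.h2, sg_co, sg_co, sg_co, sg_co]
    by_cases hq0 : q = 0
    · rw [if_pos hq0, if_pos hq0]
      split_ifs <;> simp
    · rw [if_neg hq0, if_neg hq0]
      split_ifs <;> simp
  have e2 : (w.sum fun i a => a * (sg 0 (algebraMap (BB U) (VV U) (MvPolynomial.C t1)) *
      sg 0 (algebraMap (BB U) (VV U) b)) * v i) =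
      (w.sum fun i a => a * sg 0 (algebraMap (BB U) (VV U) (MvPolynomial.C t1 * b)) * v i) +
      (w.sum fun i a => a * sg 0 (algebraMap (BB U) (VV U) (d2 b)) * v i) * hs 1 1 := by
    rw [Finsupp.sum, Finsupp.sum, Finsupp.sum, Finset.sum_mul, ← sum_add_distrib]
    refine sum_congr rfl fun i _ => ?_
    have e3 : ∀ a x z : SR (VV U), a * (x * hs 1 1) * z = a * x * z * hs 1 1 := by
      intro a x z
      rw [← mul_assoc, mul_assoc (a * x) (hs 1 1) z, ← hs_central, ← mul_assoc]
    rw [e1, mul_add, add_mul, e3]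
  rw [e2, hw _ ⟨_, rfl⟩, hw _ ⟨_, rfl⟩, zero_mul, add_zero]

theorem closure_t2 {t2 : U} (h12 : (d1 : Der U) t2 = 0) {ι : Type} (v : ι → SR (VV U))
    (w : ι →₀ SR (VV U))
    (hw : ∀ y ∈ {y : SR (VV U) | ∃ b : BB U, y = sg 0 (algebraMap (BB U) (VV U) b)},
      (w.sum fun i a => a * y * v i) = 0) (b : BB U) :
    (w.sum fun i a => a * (sg 0 (algebraMap (BB U) (VV U) (MvPolynomial.C t2)) *
                sg 0 (algebraMap (BB U) (VV U) b)) * v i) = 0 := by
  have k12 : (d1 : Der (VV U)) (algebraMap (BB U) (VV U) (MvPolynomial.C t2)) = 0 := by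
    rw [← isD_VV.h1, d1_C, h12, map_zero, map_zero]
  have e1 : sg 0 (algebraMap (BB U) (VV U) (MvPolynomial.C t2)) * sg 0 (algebraMap (BB U) (VV U) b) =
      sg 0 (algebraMap (BB U) (VV U) (MvPolynomial.C t2 * b)) := by
    apply SR.ext'
    intro q
    rw [sg_mul_co _ k12, sub_zero, map_mul, sg_co, sg_co]
    split_ifs <;> simp
  simp only [e1]
  exact hw _ ⟨_, rfl⟩

theorem nontriv_SRV : Nontrivial (SR (VV U)) := ⟨⟨0, 1, fun h => by
    have := congrArg (fun z => SR.co z 0) h
    rw [one_eq] at this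
    simp only [sg_co_same, SR.co_zero] at this
    exact zero_ne_one this⟩⟩

/-- Two-sided multiplications over the fraction field. -/
theorem indep {t1 t2 : U} (h11 : (d1 : Der U) t1 = 1) (h21 : (d2 : Der U) t1 = 0)
    (h12 : (d1 : Der U) t2 = 0) (h22 : (d2 : Der U) t2 = 1)
    (hC : ∀ u : U, (d1 : Der U) u = 0 → (d2 : Der U) u = 0 → ∃ c : C, algebraMap C U c = u)
    {ι : Type} (v : ι → SR (VV U)) (hv : LinearIndependent (HahnSeries ℚ C) v) (u : ι →₀ SR (VV U))
    (hu : ∀ b : BB U, (u.sum fun i a => a * sg 0 (algebraMap (BB U) (VV U) b) * v i) = 0) : u = 0 := by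
  have := nontriv_SRV (U := U)
  refine lemW (P := HahnSeries ℚ C) (fun a ha => exists_left_inv ha)
          {y | ∃ b : BB U, y = sg 0 (algebraMap (BB U) (VV U) b)} ⟨1, ?_⟩
          (sg 0 (algebraMap (BB U) (VV U) (MvPolynomial.C t1)))
          (sg 0 (algebraMap (BB U) (VV U) (MvPolynomial.C t2))) v hv ?_ ?_ u ?_
  · rw [map_one]; exact one_eq
  · rintro w hw y ⟨b, rfl⟩
    exact ⟨closure_t1 h11 v w hw b, closure_t2 h12 v w hw b⟩
  · intro a c1 c2
    exact cent h11 h21 h12 h22 hC a c1 c2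
  · rintro y ⟨b, rfl⟩
    exact hu b

theorem sand_sum {P R : Type} [Field P] [Ring R] [Algebra P R] {E : Type} [Ring E] [Algebra P E]
    (ρ : R →ₐ[P] E) (b y : E) (n : ℕ) {ι : Type} (l : ι →₀ Fil P R n) (B : ι → Fil P R n) :
    sand ρ b y n (l.sum fun i m => m ⊗ₜ B i) =
      (l.mapRange ((ev1 ρ b).toLinearMap ∘ₗ (Fil P R n).subtype) (map_zero _)).sum
        (fun i a => a * y * ev1 ρ b (B i).1) := by
  rw [Finsupp.sum_mapRange_index (fun i => by rw [zero_mul, zero_mul]), Finsupp.sum, map_sum, Finsupp.sum]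
  rfl

theorem inj_XX {t1 t2 : U} (h11 : (d1 : Der U) t1 = 1) (h21 : (d2 : Der U) t1 = 0)
    (h12 : (d1 : Der U) t2 = 0) (h22 : (d2 : Der U) t2 = 1)
    (hC : ∀ u : U, (d1 : Der U) u = 0 → (d2 : Der U) u = 0 → ∃ c : C, algebraMap C U c = u) :
    Function.Injective (ev1 (iota C U) XX : FreeOver (HahnSeries ℚ C) (SR U) Unit →ₐ[_] _) := by
  classical
  have hP : CharZero (HahnSeries ℚ C) := by
    have := charZero_of_DD U
    have hCz : CharZero C := by
      refine ⟨fun m n h => ?_⟩
      have h' := congrArg (algebraMap C U) h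
      rw [map_natCast, map_natCast] at h'
      exact_mod_cast h'
    refine ⟨fun m n h => ?_⟩
    have h' := congrArg (fun p => HahnSeries.coeff p 0) h
    simp only [← map_natCast (HahnSeries.C : C →+* HahnSeries ℚ C), HahnSeries.C_apply,
      HahnSeries.coeff_single_same] at h'
    exact_mod_cast h'
  have main : ∀ n, ∀ f : FreeOver (HahnSeries ℚ C) (SR U) Unit, Deg n f → ev1 (iota C U) XX f = 0 → f = 0 := by
    intro n
    induction n with
    | zero =>
      intro f hf h0
      obtain ⟨a, rfl⟩ := hf.exists_const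
      rw [ev1_const] at h0
      rw [iota_inj (h0.trans (map_zero _).symm), map_zero]
    | succ n ih =>
      intro f hf h0
      obtain ⟨t, ht⟩ := (lin_exists hf).2 n rfl
      have hs0 : ∀ y : BB U, sand (iota C U) XX (sg 0 y) n t = 0 := fun y => by rw [← ht, lin_zero h0]
      set ρ := (mapV C U).comp (iota C U) with hρ
      set e : FreeOver (HahnSeries ℚ C) (SR U) Unit →ₐ[HahnSeries ℚ C] SR (VV U) := ev1 ρ (mapV C U XX) with he
      have he' : ∀ g, e g = mapV C U (ev1 (iota C U) XX g) := fun g => by rw [comp_ev1]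
      have hs1 : ∀ y : BB U, sand ρ (mapV C U XX) (sg 0 (algebraMap (BB U) (VV U) y)) n t = 0 := by
        intro y
        have h1 := sand_comp (mapV C U) (iota C U) XX (sg 0 y) n t
        rw [hs0, map_zero] at h1
        have h2 : mapV C U (sg 0 y) = sg 0 (algebraMap (BB U) (VV U) y) := mapA_sg _ _ _ _ _
        rwa [h2] at h1
      have hinjn : ∀ g : Fil (HahnSeries ℚ C) (SR U) n, e g.1 = 0 → g = 0 := by
        intro g hg
        rw [he'] at hg
        exact Subtype.ext (ih g.1 g.2 (mapV_inj (hg.trans (map_zero _).symm)))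
      let ℬ := Module.Basis.ofVectorSpace (HahnSeries ℚ C) (Fil (HahnSeries ℚ C) (SR U) n)
      obtain ⟨l, hl⟩ := TensorProduct.eq_repr_basis_right ℬ t
      have hv : LinearIndependent (HahnSeries ℚ C) (fun i => ev1 ρ (mapV C U XX) (ℬ i).1) := by
        refine ℬ.linearIndependent.map' (e.toLinearMap ∘ₗ (Fil (HahnSeries ℚ C) (SR U) n).subtype) ?_
        rw [LinearMap.ker_eq_bot']
        exact hinjn
      have hu0 := indep h11 h21 h12 h22 hC _ hv (l.mapRange (e.toLinearMap ∘ₗ (Fil _ _ n).subtype) (map_zero _))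
        (fun b => by
          have h1 := hs1 b
          rw [← hl, sand_sum] at h1
          exact h1)
      have hl0 : l = 0 := by
        ext1 i
        have := DFunLike.congr_fun hu0 i
        rw [Finsupp.mapRange_apply] at this
        exact hinjn _ this
      have ht0 : t = 0 := by rw [← hl, hl0, Finsupp.sum_zero_index]
      obtain ⟨a, rfl⟩ := eq_const_of_lin (f := f) (fun E _ _ ρ b y => by rw [ht, ht0, map_zero])
      rw [ev1_const] at h0
      rw [iota_inj (h0.trans (map_zero _).symm), map_zero]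
  intro f g h
  obtain ⟨n, hn⟩ := exists_deg (f - g)
  exact sub_eq_zero.mp (main n _ hn (by rw [map_sub, h, sub_self]))

end main

end Pool.Agent.AC215
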