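import Pool.Agent.AC215.Newton

namespace Pool.Agent.AC215

open HahnSeries Finset
open Pool.Agent.Results.MP_4b1745_al.OneVariable

variable {C U : Type} [Field C] [Field U] [DD U] [Algebra C U] [IsCst C U]
variable (f : FreeOver (HahnSeries ℚ C) (SR U) Unit)

/-- `β` is the critical exponent at `x` and `ν` is the order of `f(x)`. -/
structure IsBeta (x : SR U) (β ν : ℚ) : Prop where
  ge : (val x f).Ge ν
  ne : (val x f).co ν ≠ 0
  le : ∀ d, 1 ≤ d → ((Psi x f).coeff d).Ge (ν - d * β)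
  ex : ∃ d, 1 ≤ d ∧ ((Psi x f).coeff d).co (ν - d * β) ≠ 0

variable {f}

theorem exists_beta {x : SR U} (h0 : val x f ≠ 0) (hd : ∃ d, 1 ≤ d ∧ (Psi x f).coeff d ≠ 0) :
    ∃ β ν, IsBeta f x β ν := by
  classical
  obtain ⟨ν, hν1, hν2⟩ := SR.exists_order h0
  have ho : ∀ d, ∃ o : ℚ, (Psi x f).coeff d ≠ 0 → ((Psi x f).coeff d).Ge o ∧ ((Psi x f).coeff d).co o ≠ 0 := by
    intro d
    by_cases h : (Psi x f).coeff d = 0
    · exact ⟨0, fun h' => absurd h h'⟩
    · obtain ⟨o, ho⟩ := SR.exists_order h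
      exact ⟨o, fun _ => ho⟩
  choose o ho using ho
  obtain ⟨d0, hd0, hd0'⟩ := hd
  set s : Finset ℕ := (Psi x f).support.filter (fun d => 1 ≤ d) with hs
  have hmem : ∀ d, d ∈ s ↔ (Psi x f).coeff d ≠ 0 ∧ 1 ≤ d := fun d => by
    rw [hs, Finset.mem_filter, Polynomial.mem_support_iff]
  have hne : s.Nonempty := ⟨d0, (hmem d0).mpr ⟨hd0', hd0⟩⟩
  obtain ⟨d1, hd1, hmax⟩ := Finset.exists_max_image s (fun d => (ν - o d) / d) hne
  rw [hmem] at hd1
  have hpos : ∀ d : ℕ, 1 ≤ d → (0 : ℚ) < d := fun d hd => by exact_mod_cast hd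
  refine ⟨(ν - o d1) / d1, ν, hν1, hν2, ?_, d1, hd1.2, ?_⟩
  · intro d hd
    by_cases h : (Psi x f).coeff d = 0
    · rw [h]; intro q _; rfl
    · have h1 := hmax d ((hmem d).mpr ⟨h, hd⟩)
      refine (ho d h).1.mono ?_
      have h2 := hpos d hd
      rw [div_le_iff₀ h2] at h1
      linarith
  · have h2 := (hpos d1 hd1.2).ne'
    have : ν - d1 * ((ν - o d1) / d1) = o d1 := by field_simp; ring
    rw [this]
    exact (ho d1 hd1.1).2

theorem GG_ge {x : SR U} {β ν : ℚ} (h : IsBeta f x β ν) : (GG x β 1 f).Ge ν := by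
  intro q hq
  rw [GG_co]
  refine Finset.sum_eq_zero fun d _ => ?_
  by_cases hd : d = 0
  · subst hd
    rw [Psi_zero, Nat.cast_zero, zero_mul, sub_zero, iota_co, h.ge q hq, map_zero]
  · exact h.le d (by omega) _ (by linarith)

theorem GG_nonconst {x : SR U} {β ν : ℚ} (h : IsBeta f x β ν) (c : U) :
    (GG x β 1 f).co ν ≠ MvPolynomial.C c := by
  intro hc
  obtain ⟨d, hd, hne⟩ := h.ex
  exact hne (GG_const f hc d hd)

/-- If the coefficient of `f(y + ħ^β X)` at `μ` is not constant then some higher `Psi` coefficient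
is responsible for it. -/
theorem exists_of_nonconst {y : SR U} {β μ : ℚ}
    (h : ∀ c, (GG y β 1 f).co μ ≠ MvPolynomial.C c) :
    ∃ d, 1 ≤ d ∧ ((Psi y f).coeff d).co (μ - d * β) ≠ 0 := by
  by_contra hcon
  push Not at hcon
  apply h ((val y f).co μ)
  rw [GG_co]
  by_cases h0 : 0 ∈ (Psi y f).support
  · rw [Finset.sum_eq_single_of_mem 0 h0]
    · rw [Psi_zero, Nat.cast_zero, zero_mul, sub_zero, iota_co]
    · intro d _ hd
      exact hcon d (by omega)
  · rw [Finset.sum_eq_zero (fun d hd => hcon d (by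
      rcases Nat.eq_zero_or_pos d with h' | h'
      · exact absurd (h' ▸ hd) h0
      · exact h'))]
    have := Polynomial.notMem_support_iff.mp h0
    rw [← iota_co (C := C), ← Psi_zero, this]; rfl

theorem beta_le {y : SR U} {β β' μ ν' : ℚ} (h' : IsBeta f y β' ν') (hμ : μ ≤ ν')
    (hex : ∃ d, 1 ≤ d ∧ ((Psi y f).coeff d).co (μ - d * β) ≠ 0) : β ≤ β' := by
  obtain ⟨d, hd, hne⟩ := hex
  have h1 : ν' - d * β' ≤ μ - d * β := by
    by_contra hlt
    exact hne (h'.le d hd _ (not_le.mp hlt))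
  have h2 : (0 : ℚ) < d := by exact_mod_cast hd
  by_contra h3
  rw [not_le] at h3
  nlinarith

theorem beta_lt {y : SR U} {β β' μ ν' : ℚ} (h' : IsBeta f y β' ν') (hμ : μ < ν')
    (hex : ∃ d, 1 ≤ d ∧ ((Psi y f).coeff d).co (μ - d * β) ≠ 0) : β < β' := by
  obtain ⟨d, hd, hne⟩ := hex
  have h1 : ν' - d * β' ≤ μ - d * β := by
    by_contra hlt
    exact hne (h'.le d hd _ (not_le.mp hlt))
  have h2 : (0 : ℚ) < d := by exact_mod_cast hd
  by_contra h3
  rw [not_lt] at h3
  nlinarith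

theorem val_of_GG {y : SR U} {β ν : ℚ} (h : (GG y β 1 f).Ge ν) : (val y f).Ge ν := by
  intro q hq
  rw [← eps_GG f y β 1, eps_co, h q hq, map_zero]

theorem le_of_GG {y : SR U} {β β' ν ν' : ℚ} (h : (GG y β 1 f).Ge ν) (h' : IsBeta f y β' ν') : ν ≤ ν' := by
  by_contra hlt
  exact h'.ne (val_of_GG h ν' (not_le.mp hlt))

/-- Monotonicity of the critical exponent. -/
theorem mono_beta {x y : SR U} {β ν β' ν' : ℚ} (h : IsBeta f x β ν) (h' : IsBeta f y β' ν')
    (hxy : (y - x).Ge β) : β ≤ β' := by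
  set z : SR U := (y - x) * hs (-β) 1 with hz
  have hz0 : z.Ge 0 := by
    intro q hq
    rw [hz, mul_hs_co, hxy _ (by linarith), zero_mul]
  have hy : y = x + z * hs β 1 := by
    rw [hz, mul_assoc, hs_mul, neg_add_cancel, one_mul, hs_zero_one, mul_one]; abel
  have e1 : ev1 (iota C U) XX (tr x β f) = GG x β 1 f := by
    rw [ev1_tr, GG, iota_hs]
  have e2 : ev1 (iota C U) (XX + iota C U z) (tr x β f) = GG y β 1 f := by
    rw [ev1_tr, GG, iota_hs]
    congr 1
    conv_rhs => rw [hy, map_add, map_mul, iota_hs]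
    rw [add_mul]; abel
  have hSt := St_of_Ge (C := C) hz0 (tr x β f) ν (by rw [e1]; exact GG_ge h)
  rw [e1, e2] at hSt
  refine beta_le h' (le_of_GG hSt.1 h') (exists_of_nonconst fun c hc => ?_)
  rw [hSt.2] at hc
  exact GG_nonconst h c (tau_const hc)

/-- The Newton step. -/
theorem step {x : SR U} {β ν : ℚ} (h : IsBeta f x β ν) (hcl : DClosed U) :
    ∃ y : SR U, (y - x).Ge β ∧ ∀ β' ν', IsBeta f y β' ν' → β < β' := by
  obtain ⟨u, hu⟩ := hcl ((GG x β 1 f).co ν) (fun c hc => GG_nonconst h c hc)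
  have hu' : evd (RingHom.id U) (fun _ => u) ((GG x β 1 f).co ν) = 0 := hu
  have e1 : ev1 (iota C U) XX (tr x β f) = GG x β 1 f := by
    rw [ev1_tr, GG, iota_hs]
  have e2 : ev1 (iota C U) (XX + iota C U (sg 0 u)) (tr x β f) = GG (x + sg β u) β 1 f := by
    rw [ev1_tr, GG, iota_hs, map_add]
    have : iota C U (sg β u) = iota C U (sg 0 u) * hs β 1 := by
      rw [iota_sg, iota_sg, hs, sg_mul_sg (dq2 1), zero_add, map_one, mul_one]
    rw [this, add_mul]
    congr 1; abel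
  have hSt := St_sg_zero (C := C) u (tr x β f) ν (by rw [e1]; exact GG_ge h)
  rw [e1, e2, sg_co_same] at hSt
  refine ⟨x + sg β u, ?_, fun β' ν' h' => ?_⟩
  · rw [add_sub_cancel_left]
    intro q hq
    exact sg_co_ne hq.ne u
  · have hle := le_of_GG hSt.1 h'
    have hlt : ν < ν' := by
      refine lt_of_le_of_ne hle fun heq => ?_
      apply h'.ne
      rw [← heq, ← eps_GG f _ β 1, eps_co, hSt.2, evd_tau, zero_add, hu']
    refine beta_lt h' hlt (exists_of_nonconst fun c hc => ?_)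
    rw [hSt.2] at hc
    exact GG_nonconst h c (tau_const hc)

/-- Existence of roots, when the unknown is generic. -/
theorem exists_root (hcl : DClosed U)
    (hinj : Function.Injective (ev1 (iota C U) XX : FreeOver (HahnSeries ℚ C) (SR U) Unit →ₐ[_] _))
    (hf : f ∉ Set.range (const (HahnSeries ℚ C) (SR U) Unit)) : ∃ x : SR U, val x f = 0 := by
  by_contra hcon
  push Not at hcon
  have hnc : ∀ x : SR U, ∃ d, 1 ≤ d ∧ (Psi x f).coeff d ≠ 0 := by
    intro x
    by_contra h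
    push Not at h
    apply hf
    have hP : Psi x f = Polynomial.C (iota C U (val x f)) := by
      ext1 d
      rw [Polynomial.coeff_C]
      split_ifs with hd
      · rw [hd, Psi_zero]
      · exact h d (by omega)
    have h1 : GG x 0 1 f = iota C U (val x f) := by
      rw [← evh_Psi, hP, evh_C]
    have h2 : ev1 (iota C U) XX (tr x 0 f) = ev1 (iota C U) XX (const _ _ _ (val x f)) := by
      rw [ev1_tr, ev1_const, ← h1, GG, iota_hs]
    have h3 := hinj h2
    have h4 : tr (-x) 0 (tr x 0 f) = f := by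
      have : ∀ g, tr (-x) 0 g = ev1 (const (HahnSeries ℚ C) (SR U) Unit) (const _ _ _ (-x) + var _ _ _ () *
        const _ _ _ (hs 0 1)) g := fun g => rfl
      rw [this, ev1_tr, hs_zero_one, map_one, mul_one, mul_one]
      rw [map_neg, add_neg_cancel_left]
      exact free_ext (ψ := ev1 (const (HahnSeries ℚ C) (SR U) Unit) (var _ _ _ ())) (χ := AlgHom.id _ _)
        (fun a => by simp) (by simp) f
    rw [h3, tr, ev1_const] at h4
    exact ⟨val x f, h4⟩
  have hb : ∀ x : SR U, ∃ β ν, IsBeta f x β ν := fun x => exists_beta (hcon x) (hnc x)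
  choose β ν hβ using hb
  refine spherical β (fun x y hxy => mono_beta (hβ x) (hβ y) hxy) (fun x => ?_)
  obtain ⟨y, hy1, hy2⟩ := step (hβ x) hcl
  exact ⟨y, hy1, hy2 _ _ (hβ y)⟩

end Pool.Agent.AC215
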