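import Pool.Agent.AC215.Inj
import Pool.Agent.AC215.Root

namespace Pool.Agent.AC215

open HahnSeries Finset
open Pool.Agent.Results.MP_4b1745_al.OneVariable

/-- The field of constants. -/
def constF (U : Type) [Field U] [DD U] : Subfield U where
  carrier := {u | (d1 : Der U) u = 0 ∧ (d2 : Der U) u = 0}
  mul_mem' := fun {a b} ha hb => ⟨by rw [Der.leib, ha.1, hb.1, mul_zero, mul_zero, add_zero],
    by rw [Der.leib, ha.2, hb.2, mul_zero, mul_zero, add_zero]⟩
  one_mem' := ⟨Der.one _, Der.one _⟩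
  add_mem' := fun {a b} ha hb => ⟨by rw [map_add, ha.1, hb.1, add_zero], by rw [map_add, ha.2, hb.2, add_zero]⟩
  zero_mem' := ⟨map_zero _, map_zero _⟩
  neg_mem' := fun {a} ha => ⟨by rw [map_neg, ha.1, neg_zero], by rw [map_neg, ha.2, neg_zero]⟩
  inv_mem' := by
    intro a ha
    by_cases h0 : a = 0
    · rw [h0, inv_zero]; exact ⟨map_zero _, map_zero _⟩
    · have key : ∀ D : Der U, D a = 0 → D a⁻¹ = 0 := by
        intro D hD
        have h1 := D.leib a a⁻¹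
        rw [mul_inv_cancel₀ h0, Der.one, hD, mul_zero, add_zero] at h1
        exact (mul_eq_zero.mp h1.symm).resolve_left h0
      exact ⟨key _ ha.1, key _ ha.2⟩

instance (U : Type) [Field U] [DD U] : IsCst (constF U) U where
  h1 c := c.2.1
  h2 c := c.2.2

/-- The scalar field `C((ħ^ℚ))`. -/
abbrev PF (U : Type) [Field U] [DD U] : Type := HahnSeries ℚ (constF U)

theorem closed_one (U : Type) [Field U] [DD U] (hcl : DClosed U)
    (ht : ∃ t1 t2 : U, (d1 : Der U) t1 = 1 ∧ (d2 : Der U) t1 = 0 ∧ (d1 : Der U) t2 = 0 ∧ (d2 : Der U) t2 = 1) :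
    AlgClosedIn (PF U) (SR U) Unit := by
  intro f hf
  obtain ⟨t1, t2, h11, h21, h12, h22⟩ := ht
  obtain ⟨x, hx⟩ := exists_root hcl (inj_XX h11 h21 h12 h22 (fun u h1 h2 => ⟨⟨u, h1, h2⟩, rfl⟩)) hf
  exact ⟨fun _ => x, hx⟩

theorem not_surj (U : Type) [Field U] [DD U]
    (ht : ∃ t1 t2 : U, (d1 : Der U) t1 = 1 ∧ (d2 : Der U) t1 = 0 ∧ (d1 : Der U) t2 = 0 ∧ (d2 : Der U) t2 = 1) :
    ¬ Function.Surjective (algebraMap (PF U) (SR U)) := by
  intro h
  obtain ⟨t1, t2, h11, h21, h12, h22⟩ := ht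
  obtain ⟨p, hp⟩ := h (sg 0 t1)
  have h0 := congrArg (fun z => SR.co z 0) hp
  simp only [sg_co_same] at h0
  have h1 : (d1 : Der U) ((algebraMap (PF U) (SR U) p).co 0) = 0 := (p.coeff 0).2.1
  rw [h0, h11] at h1
  exact one_ne_zero h1

instance nontriv_SR (U : Type) [Field U] [DD U] : Nontrivial (SR U) := ⟨⟨0, 1, fun h => by
    have h1 := congrArg (fun z => SR.co z 0) h
    rw [one_eq] at h1
    simp only [sg_co_same, SR.co_zero] at h1
    exact zero_ne_one h1⟩⟩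

theorem closed_all (U : Type) [Field U] [DD U] (hcl : DClosed U)
    (ht : ∃ t1 t2 : U, (d1 : Der U) t1 = 1 ∧ (d2 : Der U) t1 = 0 ∧ (d1 : Der U) t2 = 0 ∧ (d2 : Der U) t2 = 1) :
    AlgClosedIn (PF U) (SR U) ℕ :=
  (Results.MP_4b1745_al.OneVariable.result (P := PF U) (R := SR U)).mpr ⟨not_surj U ht, closed_one U hcl ht⟩

end Pool.Agent.AC215
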