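import Pool.Agent.AC215.Alg

namespace Pool.Agent.AC215

open HahnSeries Finset
open Pool.Agent.Results.MP_4b1745_al.OneVariable

section spherical
variable {A : Type*} [CommRing A]

/-- A Hahn series with given coefficients. -/
def mkSR (cf : ℚ → A) (h : (Function.support cf).IsPWO) : SR A := (⟨cf, h⟩ : HahnSeries ℚ A)

theorem mkSR_co (cf : ℚ → A) (h : (Function.support cf).IsPWO) (q : ℚ) : (mkSR cf h).co q = cf q := rfl

/-- Zorn's lemma on balls: Hahn series are spherically complete. -/
theorem spherical (β : SR A → ℚ) (h1 : ∀ x y : SR A, (y - x).Ge (β x) → β x ≤ β y)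
    (h2 : ∀ x : SR A, ∃ y : SR A, (y - x).Ge (β x) ∧ β x < β y) : False := by
  classical
  obtain ⟨m, hm⟩ := exists_maximal_of_chains_bounded (α := SR A) (r := fun x y => (y - x).Ge (β x)) (by
    intro c hc
    have agree : ∀ x ∈ c, ∀ y ∈ c, ∀ q, q < β x → q < β y → x.co q = y.co q := by
      intro x hx y hy q hqx hqy
      by_cases hxy : x = y
      · rw [hxy]
      · rcases hc hx hy hxy with h | h
        · have := h q hqx
          rw [SR.co_sub, sub_eq_zero] at this
          exact this.symm
        · have := h q hqy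
          rw [SR.co_sub, sub_eq_zero] at this
          exact this
    let cf : ℚ → A := fun q => if h : ∃ x ∈ c, q < β x then SR.co h.choose q else 0
    have hcf : ∀ x ∈ c, ∀ q, q < β x → cf q = x.co q := by
      intro x hx q hq
      have hex : ∃ x ∈ c, q < β x := ⟨x, hx, hq⟩
      change (if h : ∃ x ∈ c, q < β x then SR.co h.choose q else 0) = _
      rw [dif_pos hex]
      exact agree _ hex.choose_spec.1 x hx q hex.choose_spec.2 hq
    have hpwo : (Function.support cf).IsPWO := by
      rw [Set.isPWO_iff_isWF]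
      rw [Set.isWF_iff_no_descending_seq]
      intro s hs hmem
      have h0 : s 0 ∈ Function.support cf := hmem 0
      have hex : ∃ x ∈ c, s 0 < β x := by
        by_contra h
        apply h0
        change (if h : ∃ x ∈ c, s 0 < β x then SR.co h.choose (s 0) else 0) = 0
        rw [dif_neg h]
      obtain ⟨x, hx, hxq⟩ := hex
      have hwf : (HahnSeries.support (x : HahnSeries ℚ A)).IsWF := (HahnSeries.isWF_support _)
      rw [Set.isWF_iff_no_descending_seq] at hwf
      refine hwf s hs ?_
      intro n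
      have h3 : s n ≤ s 0 := hs.antitone (Nat.zero_le n)
      have h4 : s n ∈ Function.support cf := hmem n
      have h5 := hcf x hx (s n) (h3.trans_lt hxq)
      intro h6
      exact h4 (h5.trans h6)
    refine ⟨mkSR cf hpwo, fun x hx q hq => ?_⟩
    rw [SR.co_sub, sub_eq_zero, mkSR_co]
    exact hcf x hx q hq) (by
    intro x y z hxy hyz
    have h := h1 x y hxy
    have : z - x = (z - y) + (y - x) := by abel
    rw [this]
    exact (hyz.mono h).add hxy)
  obtain ⟨y, hy, hlt⟩ := h2 m
  have := h1 y m (hm y hy)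
  exact absurd hlt (not_lt.mpr this)

end spherical

section newton
variable {C U : Type} [Field C] [Field U] [DD U] [Algebra C U] [IsCst C U]

/-- Differential polynomials in one unknown. -/
abbrev BB (U : Type) [Field U] : Type := MvPolynomial (Unit × ℕ × ℕ) U

instance : IsCst C (BB U) where
  h1 c := by rw [MvPolynomial.algebraMap_apply, d1_C, IsCst.h1, map_zero]
  h2 c := by rw [MvPolynomial.algebraMap_apply, d2_C, IsCst.h2, map_zero]

/-- The unknown. -/
noncomputable def x0 : BB U := MvPolynomial.X ((), 0, 0)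

variable (C U) in
/-- The inclusion `R → S`. -/
noncomputable def iota : SR U →ₐ[HahnSeries ℚ C] SR (BB U) :=
  mapA MvPolynomial.C isD_C (fun _ => (MvPolynomial.algebraMap_apply _).symm)

theorem iota_co (x : SR U) (q : ℚ) : (iota C U x).co q = MvPolynomial.C (x.co q) := rfl

theorem iota_sg (g : ℚ) (a : U) : iota C U (sg g a) = sg g (MvPolynomial.C a) := mapA_sg _ _ _ _ _

theorem iota_hs (g r : ℚ) : iota C U (hs g r) = hs g r := mapA_hs _ _ _ _ _

/-- The unknown as an element of `S`. -/
noncomputable def XX : SR (BB U) := sg 0 x0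

/-- The substitution `X ↦ b` on `S`. -/
noncomputable def sub (C : Type) {U : Type} [Field C] [Field U] [DD U] [Algebra C U] [IsCst C U] (b : BB U) :
    SR (BB U) →ₐ[HahnSeries ℚ C] SR (BB U) :=
  mapA (evd MvPolynomial.C (fun _ => b)) (isD_evd isD_C _) (fun c => by
    rw [MvPolynomial.algebraMap_apply, evd_C])

/-- The evaluation `X ↦ u` from `S` to `R`. -/
noncomputable def eps (C : Type) {U : Type} [Field C] [Field U] [DD U] [Algebra C U] [IsCst C U] (u : U) :
    SR (BB U) →ₐ[HahnSeries ℚ C] SR U :=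
  mapA (evd (RingHom.id U) (fun _ => u)) (isD_evd IsD.id _) (fun c => by
    rw [MvPolynomial.algebraMap_apply, evd_C]; rfl)

theorem sub_iota (b : BB U) : (sub C b).comp (iota C U) = iota C U := by
  apply AlgHom.ext
  intro x
  apply SR.ext'
  intro q
  rw [AlgHom.comp_apply, sub, mapA_co, iota_co, evd_C]

theorem sub_XX (b : BB U) : sub C b XX = sg 0 b := by
  rw [XX, sub, mapA_sg, x0, evd_X]; rfl

theorem eps_iota (u : U) : (eps C u).comp (iota C U) = AlgHom.id _ _ := by
  apply AlgHom.ext
  intro x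
  apply SR.ext'
  intro q
  rw [AlgHom.comp_apply, eps, mapA_co, iota_co, evd_C]; rfl

theorem eps_XX (u : U) : eps C u XX = sg 0 u := by
  rw [XX, eps, mapA_sg, x0, evd_X]; rfl

theorem sub_co (b : BB U) (x : SR (BB U)) (q : ℚ) :
    (sub C b x).co q = evd MvPolynomial.C (fun _ => b) (x.co q) := rfl

theorem eps_co (u : U) (x : SR (BB U)) (q : ℚ) :
    (eps C u x).co q = evd (RingHom.id U) (fun _ => u) (x.co q) := rfl

/-- Translations on differential polynomials. -/
noncomputable def tau (u : U) : BB U →+* BB U := evd MvPolynomial.C (fun _ => x0 + MvPolynomial.C u)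

theorem isD_tau (u : U) : IsD (tau u) := isD_evd isD_C _

theorem tau_C (u a : U) : tau u (MvPolynomial.C a) = MvPolynomial.C a := evd_C _ _ _

theorem tau_x0 (u : U) : tau u x0 = x0 + MvPolynomial.C u := by
  rw [tau, x0, evd_X]; rfl

theorem tau_tau (u v : U) (p : BB U) : tau u (tau v p) = tau (u + v) p := by
  have : (tau u).comp (tau v) = tau (u + v) := by
    refine evd_ext ((isD_tau u).comp (isD_tau v)) (isD_tau _) (fun a => ?_) (fun i => ?_)
    · rw [RingHom.comp_apply, tau_C, tau_C, tau_C]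
    · change tau u (tau v x0) = tau (u + v) x0
      rw [tau_x0, tau_x0, map_add, tau_x0, tau_C, map_add, add_assoc]
  rw [← this]; rfl

theorem tau_zero (p : BB U) : tau 0 p = p := by
  have : (tau 0 : BB U →+* BB U) = RingHom.id _ := by
    refine evd_ext (isD_tau 0) IsD.id (fun a => ?_) (fun i => ?_)
    · rw [tau_C]; rfl
    · change tau 0 x0 = x0
      rw [tau_x0, map_zero, add_zero]
  rw [this]; rfl

theorem evd_tau (u v : U) (p : BB U) : evd (RingHom.id U) (fun _ => u) (tau v p) =
    evd (RingHom.id U) (fun _ => u + v) p := by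
  have : (evd (RingHom.id U) (fun _ => u)).comp (tau v) = evd (RingHom.id U) (fun _ => u + v) := by
    refine evd_ext ((isD_evd IsD.id _).comp (isD_tau v)) (isD_evd IsD.id _) (fun a => ?_) (fun i => ?_)
    · rw [RingHom.comp_apply, tau_C, evd_C, evd_C]
    · change evd (RingHom.id U) (fun _ => u) (tau v x0) = evd (RingHom.id U) (fun _ => u + v) x0
      rw [tau_x0, map_add, evd_C, x0, evd_X, evd_X]; rfl
  rw [← this]; rfl

theorem tau_const {u : U} {p : BB U} {c : U} (h : tau u p = MvPolynomial.C c) : p = MvPolynomial.C c := by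
  have := congrArg (tau (-u)) h
  rwa [tau_tau, neg_add_cancel, tau_zero, tau_C] at this

/-- The element `f(x + s X)` of `S[s]`. -/
noncomputable def Psi (x : SR U) (f : FreeOver (HahnSeries ℚ C) (SR U) Unit) : Polynomial (SR (BB U)) :=
  ev1 ((Polynomial.CAlgHom (R := HahnSeries ℚ C)).comp (iota C U))
    (Polynomial.C (iota C U x) + Polynomial.C XX * Polynomial.X) f

/-- The element `f(x + r ħ^β X)` of `S`. -/
noncomputable def GG (x : SR U) (β r : ℚ) (f : FreeOver (HahnSeries ℚ C) (SR U) Unit) : SR (BB U) :=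
  ev1 (iota C U) (iota C U x + XX * hs β r) f

/-- The value `f(x)`. -/
noncomputable def val (x : SR U) (f : FreeOver (HahnSeries ℚ C) (SR U) Unit) : SR U :=
  ev1 (AlgHom.id _ _) x f

variable (f : FreeOver (HahnSeries ℚ C) (SR U) Unit)

theorem evh_CAlg (g r : ℚ) : (evh C g r).comp ((Polynomial.CAlgHom (R := HahnSeries ℚ C)).comp (iota C U)) =
    iota C U := by
  apply AlgHom.ext
  intro x
  rw [AlgHom.comp_apply, AlgHom.comp_apply]
  exact evh_C g r _

theorem evh_Psi (x : SR U) (β r : ℚ) : evh C β r (Psi x f) = GG x β r f := by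
  rw [Psi, comp_ev1, evh_CAlg, map_add, map_mul, evh_C, evh_C, evh_X, GG]

theorem sub_GG (x : SR U) (β r : ℚ) :
    sub C (MvPolynomial.C (DD.q r) * x0) (GG x β 1 f) = GG x β r f := by
  rw [GG, comp_ev1, sub_iota, map_add, map_mul, sub_XX]
  rw [← AlgHom.comp_apply, sub_iota, GG]
  congr 2
  have e1 : sub C (MvPolynomial.C (DD.q r) * x0) (hs β 1) = (hs β 1 : SR (BB U)) := mapA_hs _ _ _ _ _
  rw [e1]
  have e2 : (sg 0 (MvPolynomial.C (DD.q r) * x0) : SR (BB U)) = XX * hs 0 r := by
    rw [hs, XX, sg_mul_sg (dq2 r), add_zero, mul_comm]; rfl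
  rw [e2, mul_assoc, hs_mul, zero_add, mul_one]

theorem GG_co (x : SR U) (β q : ℚ) :
    (GG x β 1 f).co q = ∑ d ∈ (Psi x f).support, ((Psi x f).coeff d).co (q - d * β) := by
  rw [← evh_Psi, evh_co]
  refine sum_congr rfl fun d _ => ?_
  rw [one_pow, map_one, mul_one]

theorem GG_const {x : SR U} {β q : ℚ} {c : U} (h : (GG x β 1 f).co q = MvPolynomial.C c) (d : ℕ)
    (hd : 1 ≤ d) : ((Psi x f).coeff d).co (q - d * β) = 0 := by
  refine lam (C := C) β q (Psi x f) (MvPolynomial.C c) (fun r => ?_) d hd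
  rw [evh_Psi, ← sub_GG, sub_co, h, evd_C]

theorem Psi_zero (x : SR U) : (Psi x f).coeff 0 = iota C U (val x f) := by
  have h1 : evh C 0 0 (Psi x f) = (Psi x f).coeff 0 := by
    apply SR.ext'
    intro q
    rw [evh_co]
    by_cases h : 0 ∈ (Psi x f).support
    · rw [Finset.sum_eq_single_of_mem 0 h]
      · simp
      · intro d _ hd
        rw [zero_pow hd, map_zero, mul_zero]
    · rw [Finset.sum_eq_zero, Polynomial.notMem_support_iff.mp h, SR.co_zero]
      intro d hd
      rw [zero_pow (fun h0 => h (h0 ▸ hd)), map_zero, mul_zero]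
  rw [← h1, evh_Psi, GG, val, comp_ev1, AlgHom.comp_id]
  congr 1
  rw [hs, map_zero, sg_zero, mul_zero, add_zero]

theorem eps_GG (x : SR U) (β r : ℚ) : eps C 0 (GG x β r f) = val x f := by
  rw [GG, comp_ev1, eps_iota, val, map_add, map_mul, eps_XX, sg_zero, zero_mul, add_zero]
  rw [← AlgHom.comp_apply, eps_iota]; rfl

/-- Substitution in the free product. -/
noncomputable def tr (a : SR U) (β : ℚ) :
    FreeOver (HahnSeries ℚ C) (SR U) Unit →ₐ[HahnSeries ℚ C] FreeOver (HahnSeries ℚ C) (SR U) Unit :=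
  ev1 (const _ _ _) (const _ _ _ a + var _ _ _ () * const _ _ _ (hs β 1))

theorem ev1_tr {E : Type*} [Ring E] [Algebra (HahnSeries ℚ C) E] (ρ : SR U →ₐ[HahnSeries ℚ C] E) (b : E)
    (a : SR U) (β : ℚ) : ev1 ρ b (tr a β f) = ev1 ρ (ρ a + b * ρ (hs β 1)) f := by
  rw [tr, comp_ev1]
  congr 1
  · congr 1
    · apply AlgHom.ext; intro y; rw [AlgHom.comp_apply, ev1_const]
    · simp

/-- The translation property. -/
def St (C : Type) {U : Type} [Field C] [Field U] [DD U] [Algebra C U] [IsCst C U] (z : SR U) : Prop :=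
  ∀ (g : FreeOver (HahnSeries ℚ C) (SR U) Unit) (μ : ℚ), (ev1 (iota C U) XX g).Ge μ →
    (ev1 (iota C U) (XX + iota C U z) g).Ge μ ∧
    (ev1 (iota C U) (XX + iota C U z) g).co μ = tau (z.co 0) ((ev1 (iota C U) XX g).co μ)

theorem St_zero : St C (0 : SR U) := by
  intro g μ h
  rw [map_zero, add_zero, SR.co_zero, tau_zero]
  exact ⟨h, rfl⟩

theorem St_add {z z' : SR U} (h : St C z) (h' : St C z') : St C (z + z') := by
  intro g μ hg
  have e1 : ∀ b : SR (BB U), ev1 (iota C U) b (tr z 0 g) = ev1 (iota C U) (b + iota C U z) g := by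
    intro b
    rw [ev1_tr, hs_zero_one, map_one, mul_one, add_comm]
  have h1 := h g μ hg
  have h2 := h' (tr z 0 g) μ (by rw [e1]; exact h1.1)
  rw [e1, e1, h1.2, tau_tau] at h2
  rw [map_add, SR.co_add, add_comm (iota C U z), ← add_assoc, add_comm (z.co 0)]
  exact h2

theorem ev1_tau (c : U) (g : FreeOver (HahnSeries ℚ C) (SR U) Unit) :
    ev1 (iota C U) (XX + iota C U (sg 0 c)) g = sub C (x0 + MvPolynomial.C c) (ev1 (iota C U) XX g) := by
  rw [comp_ev1, sub_iota, sub_XX, sg_add, iota_sg]; rfl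

theorem St_sg_zero (c : U) : St C (sg 0 c : SR U) := by
  intro g μ h
  rw [ev1_tau, sg_co_same]
  exact ⟨fun q hq => by rw [sub_co, h q hq, map_zero], rfl⟩

theorem St_sg_pos {i : ℚ} (hi : 0 < i) (c : U) : St C (sg i c : SR U) := by
  intro g μ h
  rw [sg_co_ne hi.ne, tau_zero]
  set H : Polynomial (SR (BB U)) := ev1 ((Polynomial.CAlgHom (R := HahnSeries ℚ C)).comp (iota C U))
    (Polynomial.C XX + Polynomial.C (iota C U (sg 0 c)) * Polynomial.X) g with hH
  have e1 : ∀ j r : ℚ, evh C j r H = ev1 (iota C U) (XX + iota C U (sg j (c * DD.q r))) g := by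
    intro j r
    rw [hH, comp_ev1, evh_CAlg, map_add, map_mul, evh_C, evh_C, evh_X]
    have : iota C U (sg j (c * DD.q r)) = iota C U (sg 0 c) * hs j r := by
      rw [iota_sg, iota_sg, hs, sg_mul_sg (dq2 r), zero_add, map_mul]; rfl
    rw [this]
  have e2 : ∀ d, 1 ≤ d → (H.coeff d).Ge μ := by
    intro d hd q hq
    have := lam (C := C) 0 q H 0 (fun r => by
      rw [e1, ev1_tau, sub_co, h q hq, map_zero]) d hd
    rwa [mul_zero, sub_zero] at this
  have e3 : ∀ q, q ≤ μ → (ev1 (iota C U) (XX + iota C U (sg i c)) g).co q = (ev1 (iota C U) XX g).co q := by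
    intro q hq
    have a1 : ∀ j r : ℚ, (j ≥ 0) → (j = 0 → r = 0) → (evh C j r H).co q = (H.coeff 0).co q := by
      intro j r hj hjr
      rw [evh_co]
      by_cases h0 : 0 ∈ H.support
      · rw [Finset.sum_eq_single_of_mem 0 h0]
        · simp
        · intro d _ hd
          by_cases hj0 : j = 0
          · rw [hjr hj0, zero_pow hd, map_zero, mul_zero]
          · rw [e2 d (by omega) _ ?_, zero_mul]
            have : (0 : ℚ) < j := lt_of_le_of_ne hj (Ne.symm hj0)
            have : (0 : ℚ) < d := by exact_mod_cast Nat.pos_of_ne_zero hd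
            nlinarith
      · rw [Finset.sum_eq_zero, Polynomial.notMem_support_iff.mp h0, SR.co_zero]
        intro d hdm
        have hd : d ≠ 0 := fun h => h0 (h ▸ hdm)
        by_cases hj0 : j = 0
        · rw [hjr hj0, zero_pow hd, map_zero, mul_zero]
        · rw [e2 d (by omega) _ ?_, zero_mul]
          have : (0 : ℚ) < j := lt_of_le_of_ne hj (Ne.symm hj0)
          have : (0 : ℚ) < d := by exact_mod_cast Nat.pos_of_ne_zero hd
          nlinarith
    have b1 := a1 i 1 hi.le (fun h => absurd h hi.ne')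
    have b2 := a1 0 0 le_rfl (fun _ => rfl)
    rw [e1, map_one, mul_one] at b1
    rw [e1, map_zero, mul_zero, sg_zero, map_zero, add_zero] at b2
    rw [b1, b2]
  exact ⟨fun q hq => by rw [e3 q hq.le, h q hq], e3 μ le_rfl⟩

/-- Finite truncations. -/
noncomputable def trunc (z : SR U) (s : Finset ℚ) : SR U := ∑ i ∈ s, sg i (z.co i)

theorem trunc_co (z : SR U) (s : Finset ℚ) (q : ℚ) : (trunc z s).co q = if q ∈ s then z.co q else 0 := by
  classical
  rw [trunc, SR.co_sum]
  split_ifs with h
  · rw [Finset.sum_eq_single_of_mem q h, sg_co_same]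
    intro i _ hi
    rw [sg_co_ne (Ne.symm hi)]
  · refine Finset.sum_eq_zero fun i hi => ?_
    rw [sg_co_ne (by rintro rfl; exact h hi)]

theorem St_trunc {z : SR U} (hz : z.Ge 0) (s : Finset ℚ) : St C (trunc z s) := by
  classical
  induction s using Finset.induction_on with
  | empty => rw [trunc, sum_empty]; exact St_zero
  | insert i s hi ih =>
    rw [trunc, sum_insert hi]
    refine St_add ?_ ih
    rcases lt_trichotomy i 0 with h | h | h
    · rw [hz i h, sg_zero]; exact St_zero
    · rw [h]; exact St_sg_zero _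
    · exact St_sg_pos h _

theorem Conv_trunc (z : SR U) : Conv Filter.atTop (fun s => trunc z s) z := by
  refine ⟨{q | z.co q ≠ 0}, HahnSeries.isPWO_support (z : HahnSeries ℚ U), ?_, fun _ h => h, ?_⟩
  · intro s q h
    rw [trunc_co] at h
    split_ifs at h
    · exact h
    · exact absurd rfl h
  · intro q
    filter_upwards [Filter.eventually_ge_atTop {q}] with s hs
    rw [trunc_co, if_pos (Finset.singleton_subset_iff.mp hs)]

theorem Conv.iota {ι : Type*} {l : Filter ι} {φ : ι → SR U} {Φ : SR U} (h : Conv l φ Φ) :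
    Conv l (fun i => AC215.iota C U (φ i)) (AC215.iota C U Φ) := by
  obtain ⟨s, hs, a1, a2, a3⟩ := h
  refine ⟨s, hs, ?_, ?_, ?_⟩
  · intro i q h
    apply a1 i
    intro h'
    apply h
    rw [iota_co, h', map_zero]
  · intro q h
    apply a2
    intro h'
    apply h
    rw [iota_co, h', map_zero]
  · intro q
    filter_upwards [a3 q] with i hi
    rw [iota_co, iota_co, hi]

theorem Conv_ev1 {ι : Type*} {l : Filter ι} {b : ι → SR (BB U)} {b0 : SR (BB U)} (hb : Conv l b b0)
    (g : FreeOver (HahnSeries ℚ C) (SR U) Unit) :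
    Conv l (fun i => ev1 (iota C U) (b i) g) (ev1 (iota C U) b0 g) := by
  refine induct (C := fun g => Conv l (fun i => ev1 (iota C U) (b i) g) (ev1 (iota C U) b0 g))
    ?_ ?_ ?_ ?_ g
  · intro a
    simp only [ev1_const]
    exact Conv.const _ _
  · intro i
    cases i
    simp only [ev1_var]
    exact hb
  · intro f g hf hg
    simp only [map_add]
    exact hf.add hg
  · intro f g hf hg
    simp only [map_mul]
    exact hf.mul hg

theorem St_of_Ge {z : SR U} (hz : z.Ge 0) : St C z := by
  intro g μ h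
  have hc := Conv_ev1 (C := C) ((Conv.const Filter.atTop XX).add (Conv.iota (C := C) (Conv_trunc z))) g
  obtain ⟨s, hs, a1, a2, a3⟩ := hc
  constructor
  · intro q hq
    obtain ⟨t, ht⟩ := (a3 q).exists
    rw [← ht]
    exact (St_trunc hz t g μ h).1 q hq
  · have h0 : ∀ᶠ t in Filter.atTop, (trunc z t).co 0 = z.co 0 := by
      filter_upwards [Filter.eventually_ge_atTop {0}] with s hs
      rw [trunc_co, if_pos (Finset.singleton_subset_iff.mp hs)]
    obtain ⟨t, ht, ht0⟩ := ((a3 μ).and h0).exists
    rw [← ht, ← ht0]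
    exact (St_trunc hz t g μ h).2

end newton

end Pool.Agent.AC215
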