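import Pool.Agent.AC215.Star

namespace Pool.Agent.AC215

open HahnSeries Finset

/-- Hahn series with exponents in `ℚ`, with the star product as multiplication. -/
def SR (A : Type*) [CommRing A] : Type _ := HahnSeries ℚ A

section ring
variable {A : Type*} [CommRing A]

noncomputable instance : AddCommGroup (SR A) := inferInstanceAs (AddCommGroup (HahnSeries ℚ A))

/-- Coefficients. -/
def SR.co (x : SR A) (q : ℚ) : A := HahnSeries.coeff (x : HahnSeries ℚ A) q

@[simp] theorem SR.co_add (x y : SR A) (q : ℚ) : (x + y).co q = x.co q + y.co q := rfl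
@[simp] theorem SR.co_sub (x y : SR A) (q : ℚ) : (x - y).co q = x.co q - y.co q := rfl
@[simp] theorem SR.co_neg (x : SR A) (q : ℚ) : (-x).co q = -x.co q := rfl
@[simp] theorem SR.co_zero (q : ℚ) : (0 : SR A).co q = 0 := rfl

theorem SR.ext' {x y : SR A} (h : ∀ q, x.co q = y.co q) : x = y := HahnSeries.ext (funext h)

/-- The coefficient as an additive homomorphism. -/
def SR.coHom (q : ℚ) : SR A →+ A where
  toFun x := x.co q
  map_zero' := rfl
  map_add' _ _ := rfl

theorem SR.co_sum {ι : Type*} (s : Finset ι) (f : ι → SR A) (q : ℚ) :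
    (∑ i ∈ s, f i).co q = ∑ i ∈ s, (f i).co q := map_sum (SR.coHom q) f s

/-- The monomial `a ħ^g`. -/
noncomputable def sg (g : ℚ) (a : A) : SR A := (single g a : HahnSeries ℚ A)

theorem sg_co_same (g : ℚ) (a : A) : (sg g a).co g = a := HahnSeries.coeff_single_same g a
theorem sg_co_ne {g q : ℚ} (h : q ≠ g) (a : A) : (sg g a).co q = 0 := HahnSeries.coeff_single_of_ne h
theorem sg_co (g q : ℚ) (a : A) : (sg g a).co q = if q = g then a else 0 := by
  split_ifs with h
  · rw [h, sg_co_same]
  · exact sg_co_ne h a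

@[simp] theorem sg_zero (g : ℚ) : sg g (0 : A) = 0 := HahnSeries.single_eq_zero
theorem sg_add (g : ℚ) (a b : A) : sg g (a + b) = sg g a + sg g b := by
  apply SR.ext'; intro q; rw [SR.co_add, sg_co, sg_co, sg_co]; split_ifs <;> simp

/-- `x` has no coefficients below `β`. -/
def SR.Ge (β : ℚ) (x : SR A) : Prop := ∀ q < β, x.co q = 0

theorem SR.exists_Ge (x : SR A) : ∃ α, x.Ge α := exists_J (A := A) x

theorem SR.Ge.add {β : ℚ} {x y : SR A} (hx : x.Ge β) (hy : y.Ge β) : (x + y).Ge β := fun q hq => by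
  rw [SR.co_add, hx q hq, hy q hq, add_zero]
theorem SR.Ge.neg {β : ℚ} {x : SR A} (hx : x.Ge β) : (-x).Ge β := fun q hq => by
  rw [SR.co_neg, hx q hq, neg_zero]
theorem SR.Ge.sub {β : ℚ} {x y : SR A} (hx : x.Ge β) (hy : y.Ge β) : (x - y).Ge β := fun q hq => by
  rw [SR.co_sub, hx q hq, hy q hq, sub_zero]
theorem SR.Ge.mono {α β : ℚ} (h : α ≤ β) {x : SR A} (hx : x.Ge β) : x.Ge α :=
  fun q hq => hx q (hq.trans_le h)

/-- The order: the least exponent (for `x ≠ 0`). -/
theorem SR.exists_order {x : SR A} (hx : x ≠ 0) : ∃ α, x.Ge α ∧ x.co α ≠ 0 := by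
  have key : ∀ y : HahnSeries ℚ A, y ≠ 0 → ∃ α, (∀ q < α, y.coeff q = 0) ∧ y.coeff α ≠ 0 := by
    intro y hy
    exact ⟨y.order, fun q hq => coeff_eq_zero_of_lt_order hq, fun h => hy (coeff_order_eq_zero.mp h)⟩
  exact key x hx

variable [DD A]

noncomputable instance : Mul (SR A) := ⟨fun a b => star (a : HahnSeries ℚ A) b⟩
noncomputable instance : One (SR A) := ⟨(1 : HahnSeries ℚ A)⟩

theorem SR.mul_def (a b : SR A) : a * b = (star (a : HahnSeries ℚ A) (b : HahnSeries ℚ A) : HahnSeries ℚ A) := rfl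

noncomputable instance : Ring (SR A) :=
  { (inferInstance : AddCommGroup (SR A)), (inferInstance : Mul (SR A)), (inferInstance : One (SR A)) with
    left_distrib := fun a b c => star_add_right _ _ _
    right_distrib := fun a b c => star_add_left _ _ _
    zero_mul := fun a => star_zero_left _
    mul_zero := fun a => star_zero_right _
    mul_assoc := fun a b c => star_assoc _ _ _
    one_mul := fun a => (star_const_left (Der.one _) _).trans (one_mul (M := HahnSeries ℚ A) _)
    mul_one := fun a => (star_const_right (Der.one _) _).trans (mul_one (M := HahnSeries ℚ A) _) }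

omit [DD A] in
theorem one_eq : (1 : SR A) = sg 0 1 := rfl

theorem SR.natCast_eq (n : ℕ) : (n : SR A) = sg 0 (n : A) := by
  induction n with
  | zero => simp
  | succ n ih => rw [Nat.cast_succ, ih, one_eq, ← sg_add, Nat.cast_succ]

/-- Multiplication by a monomial with constant coefficient. -/
theorem mul_sg_co (x : SR A) {g : ℚ} {a : A} (h2 : (d2 : Der A) a = 0) (q : ℚ) :
    (x * sg g a).co q = x.co (q - g) * a := by
  have hz : (D2 : Der (HahnSeries ℚ A)) (single g a) = 0 := by
    ext q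
    change (d2 : Der A) ((single g a : HahnSeries ℚ A).coeff q) = 0
    by_cases h : q = g
    · subst h; rw [coeff_single_same, h2]
    · rw [coeff_single_of_ne h, map_zero]
  have key : ∀ y : HahnSeries ℚ A, (star y (single g a)).coeff q = y.coeff (q - g) * a := fun y => by
    rw [star_const_right hz, HahnSeries.coeff_mul_single]
  exact key x

theorem sg_mul_co (x : SR A) {g : ℚ} {a : A} (h1 : (d1 : Der A) a = 0) (q : ℚ) :
    (sg g a * x).co q = a * x.co (q - g) := by
  have hz : (D1 : Der (HahnSeries ℚ A)) (single g a) = 0 := by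
    ext q
    change (d1 : Der A) ((single g a : HahnSeries ℚ A).coeff q) = 0
    by_cases h : q = g
    · subst h; rw [coeff_single_same, h1]
    · rw [coeff_single_of_ne h, map_zero]
  have key : ∀ y : HahnSeries ℚ A, (star (single g a) y).coeff q = a * y.coeff (q - g) := fun y => by
    rw [star_const_left hz, HahnSeries.coeff_single_mul]
  exact key x

theorem sg_mul_sg {g g' : ℚ} {a b : A} (h2 : (d2 : Der A) b = 0) :
    sg g a * sg g' b = sg (g + g') (a * b) := by
  apply SR.ext'
  intro q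
  rw [mul_sg_co _ h2, sg_co, sg_co]
  by_cases h : q = g + g'
  · rw [if_pos h, if_pos (by linarith)]
  · rw [if_neg h, if_neg (fun h' => h (by linarith)), zero_mul]

/-- `r ħ^g`, a central element. -/
noncomputable def hs (g r : ℚ) : SR A := sg g (DD.q r)

theorem dq1 (r : ℚ) : (d1 : Der A) (DD.q r) = 0 := der_q _ _ _
theorem dq2 (r : ℚ) : (d2 : Der A) (DD.q r) = 0 := der_q _ _ _

theorem hs_central (g r : ℚ) (x : SR A) : x * hs g r = hs g r * x := by
  apply SR.ext'
  intro q
  rw [hs, mul_sg_co _ (dq2 r), sg_mul_co _ (dq1 r), mul_comm]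

theorem mul_hs_co (x : SR A) (g r q : ℚ) : (x * hs g r).co q = x.co (q - g) * DD.q r :=
  mul_sg_co _ (dq2 r) q

theorem hs_mul (g r g' r' : ℚ) : (hs g r : SR A) * hs g' r' = hs (g + g') (r * r') := by
  rw [hs, hs, hs, sg_mul_sg (dq2 r'), map_mul]

theorem hs_zero_one : (hs 0 1 : SR A) = 1 := by rw [hs, map_one, one_eq]

theorem hs_pow (g r : ℚ) (n : ℕ) : (hs g r : SR A) ^ n = hs (n * g) (r ^ n) := by
  induction n with
  | zero => rw [pow_zero, pow_zero, Nat.cast_zero, zero_mul, hs_zero_one]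
  | succ n ih => rw [pow_succ, ih, hs_mul, pow_succ]; congr 1; push_cast; ring

theorem SR.Ge.mul {α β : ℚ} {x y : SR A} (hx : x.Ge α) (hy : y.Ge β) : (x * y).Ge (α + β) :=
  star_mem (A := A) (a := x) (b := y) hx hy

theorem SR.Ge.co_mul {α β : ℚ} {x y : SR A} (hx : x.Ge α) (hy : y.Ge β) :
    (x * y).co (α + β) = x.co α * y.co β :=
  star_coeff_low (A := A) (a := x) (b := y) hx hy

end ring

section functor
variable {A B C : Type*} [CommRing A] [CommRing B] [CommRing C] [DD A] [DD B] [DD C]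

theorem map_fi (φ : A →+* B) (n : ℕ) : φ (fi A n) = fi B n := by
  rw [fi, fi]
  have : φ.comp DD.q = DD.q := Subsingleton.elim _ _
  rw [← this]; rfl

theorem map_iter1 {φ : A →+* B} (h : IsD φ) (n : ℕ) (x : HahnSeries ℚ A) :
    (D1^[n] x).map φ = D1^[n] (x.map φ) := by
  ext q
  rw [HahnSeries.map_coeff, hD_iter, hD_iter, HahnSeries.map_coeff]
  have := h.dd n 0 (x.coeff q)
  exact this

theorem map_iter2 {φ : A →+* B} (h : IsD φ) (n : ℕ) (x : HahnSeries ℚ A) :
    (D2^[n] x).map φ = D2^[n] (x.map φ) := by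
  ext q
  rw [HahnSeries.map_coeff, hD_iter, hD_iter, HahnSeries.map_coeff]
  have := h.dd 0 n (x.coeff q)
  exact this

omit [DD A] [DD B] in
theorem hmap_mul (φ : A →+* B) (x y : HahnSeries ℚ A) : (x * y).map φ = x.map φ * y.map φ :=
  HahnSeries.map_mul (φ : A →ₙ+* B)

theorem map_tm {φ : A →+* B} (h : IsD φ) (n : ℕ) (a b : HahnSeries ℚ A) :
    (tm n a b).map φ = tm n (a.map φ) (b.map φ) := by
  rw [tm, tm, hmap_mul, hmap_mul, map_iter1 h, map_iter2 h]
  congr 1
  ext q
  rw [HahnSeries.map_coeff]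
  by_cases hq : q = n
  · rw [hq, coeff_single_same, coeff_single_same, map_fi]
  · rw [coeff_single_of_ne hq, coeff_single_of_ne hq, map_zero]

theorem map_star {φ : A →+* B} (h : IsD φ) (a b : HahnSeries ℚ A) :
    (star a b).map φ = star (a.map φ) (b.map φ) := by
  obtain ⟨α, ha⟩ := exists_J a
  obtain ⟨β, hb⟩ := exists_J b
  have ha' : a.map φ ∈ J B α := fun q hq => by rw [HahnSeries.map_coeff, ha q hq, map_zero]
  have hb' : b.map φ ∈ J B β := fun q hq => by rw [HahnSeries.map_coeff, hb q hq, map_zero]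
  ext q
  obtain ⟨N, hN⟩ := exists_nat_gt (q - (α + β))
  have e1 := star_sub_PN ha hb N q (by linarith)
  have e2 := star_sub_PN ha' hb' N q (by linarith)
  rw [coeff_sub, sub_eq_zero] at e1 e2
  rw [HahnSeries.map_coeff, e1, e2, PN, PN, coeff_sum, coeff_sum, map_sum]
  refine sum_congr rfl fun n _ => ?_
  rw [← map_tm h, HahnSeries.map_coeff]

/-- Functoriality. -/
noncomputable def SR.map (φ : A →+* B) (h : IsD φ) : SR A →+* SR B where
  toFun x := HahnSeries.map (x : HahnSeries ℚ A) φ
  map_one' := by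
    apply SR.ext'
    intro q
    change φ ((sg 0 1 : SR A).co q) = (sg 0 1 : SR B).co q
    rw [sg_co, sg_co]; split_ifs <;> simp
  map_mul' x y := map_star h x y
  map_zero' := by
    apply SR.ext'
    intro q
    exact map_zero φ
  map_add' x y := by
    apply SR.ext'
    intro q
    exact map_add φ _ _

@[simp] theorem SR.map_co (φ : A →+* B) (h : IsD φ) (x : SR A) (q : ℚ) :
    (SR.map φ h x).co q = φ (x.co q) := rfl

theorem SR.map_sg (φ : A →+* B) (h : IsD φ) (g : ℚ) (a : A) : SR.map φ h (sg g a) = sg g (φ a) := by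
  apply SR.ext'
  intro q
  rw [SR.map_co, sg_co, sg_co]; split_ifs <;> simp

theorem map_q (φ : A →+* B) (r : ℚ) : φ (DD.q r) = DD.q r := by
  have : φ.comp DD.q = DD.q := Subsingleton.elim _ _
  rw [← this]; rfl

theorem SR.map_hs (φ : A →+* B) (h : IsD φ) (g r : ℚ) : SR.map φ h (hs g r) = hs g r := by
  rw [hs, SR.map_sg, map_q, hs]

end functor

end Pool.Agent.AC215
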