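import Pool.Agent.AC215.DD

namespace Pool.Agent.AC215

open HahnSeries Finset
open scoped Pointwise

section hahn
variable {A : Type*} [CommRing A]

theorem coeff_mul_ext {x y : HahnSeries ℚ A} {a : ℚ} {s t : Set ℚ} (hs : s.IsPWO) (ht : t.IsPWO)
    (hx : x.support ⊆ s) (hy : y.support ⊆ t) :
    (x * y).coeff a = ∑ ij ∈ Finset.antidiagonal hs ht a, x.coeff ij.1 * y.coeff ij.2 := by
  rw [coeff_mul]
  refine Finset.sum_subset ?_ ?_
  · intro ij hij
    rw [Finset.mem_antidiagonal] at hij ⊢
    exact ⟨hx hij.1, hy hij.2.1, hij.2.2⟩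
  · intro ij hij hn
    rw [Finset.mem_antidiagonal] at hij hn
    by_cases h1 : x.coeff ij.1 = 0
    · rw [h1, zero_mul]
    · by_cases h2 : y.coeff ij.2 = 0
      · rw [h2, mul_zero]
      · exact absurd ⟨h1, h2, hij.2.2⟩ hn

/-- Coefficientwise application of a derivation. -/
noncomputable def hD (D : Der A) : Der (HahnSeries ℚ A) where
  toFun x := x.map D
  add' x y := by ext q; simp
  leib' x y := by
    ext q
    have h1 : (x.map D).support ⊆ x.support := by
      intro q hq h
      apply hq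
      change D (x.coeff q) = 0
      rw [h, map_zero]
    have h2 : (y.map D).support ⊆ y.support := by
      intro q hq h
      apply hq
      change D (y.coeff q) = 0
      rw [h, map_zero]
    rw [coeff_add, coeff_mul_ext x.isPWO_support y.isPWO_support subset_rfl h2, mul_comm y,
      coeff_mul_ext x.isPWO_support y.isPWO_support h1 subset_rfl, ← Finset.sum_add_distrib]
    change D ((x * y).coeff q) = _
    rw [coeff_mul, map_sum]
    refine Finset.sum_congr rfl fun ij _ => ?_
    rw [Der.leib]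
    change _ = x.coeff ij.1 * D (y.coeff ij.2) + D (x.coeff ij.1) * y.coeff ij.2
    ring

@[simp] theorem hD_coeff (D : Der A) (x : HahnSeries ℚ A) (q : ℚ) : (hD D x).coeff q = D (x.coeff q) := rfl

theorem hD_iter (D : Der A) (n : ℕ) (x : HahnSeries ℚ A) (q : ℚ) :
    ((hD D)^[n] x).coeff q = D^[n] (x.coeff q) := by
  induction n generalizing x with
  | zero => rfl
  | succ n ih => rw [Function.iterate_succ_apply, Function.iterate_succ_apply, ih, hD_coeff]

theorem iter_zero (D : Der A) (n : ℕ) : D^[n] 0 = 0 := by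
  induction n with
  | zero => rfl
  | succ n ih => rw [Function.iterate_succ_apply, map_zero, ih]

theorem hD_iter_support (D : Der A) (n : ℕ) (x : HahnSeries ℚ A) :
    ((hD D)^[n] x).support ⊆ x.support := by
  intro q hq h
  apply hq
  rw [hD_iter, h, iter_zero]

theorem iter_add (D : Der A) (n : ℕ) (x y : A) : D^[n] (x + y) = D^[n] x + D^[n] y :=
  iterate_map_add _ _ _ _

theorem iter_leib (D : Der A) (n : ℕ) (a b : A) :
    D^[n] (a * b) = ∑ ij ∈ HasAntidiagonal.antidiagonal n, n.choose ij.1 • (D^[ij.1] a * D^[ij.2] b) := by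
  induction n with
  | zero => simp
  | succ n ih =>
    rw [sum_antidiagonal_choose_succ_nsmul (M := A) (fun i j => D^[i] a * D^[j] b) n]
    simp only [Function.iterate_succ_apply', ih, map_sum, map_nsmul, Der.leib, smul_add,
      sum_add_distrib, add_right_inj]
    refine sum_congr rfl fun ⟨i, j⟩ hij ↦ ?_
    rw [n.choose_symm_of_eq_add (HasAntidiagonal.mem_antidiagonal.1 hij).symm, mul_comm]

/-- Elements all of whose coefficients below `β` vanish. -/
def J (A : Type*) [CommRing A] (β : ℚ) : AddSubgroup (HahnSeries ℚ A) where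
  carrier := {x | ∀ q < β, x.coeff q = 0}
  zero_mem' := fun q _ => rfl
  add_mem' := fun {x y} hx hy q hq => by
    rw [coeff_add, hx q hq, hy q hq, add_zero]
  neg_mem' := fun {x} hx q hq => by rw [coeff_neg, hx q hq, neg_zero]

theorem mem_J {β : ℚ} {x : HahnSeries ℚ A} : x ∈ J A β ↔ ∀ q < β, x.coeff q = 0 := Iff.rfl

theorem J_mono {α β : ℚ} (h : α ≤ β) {x : HahnSeries ℚ A} (hx : x ∈ J A β) : x ∈ J A α :=
  fun q hq => hx q (hq.trans_le h)

theorem J_mul {α β : ℚ} {x y : HahnSeries ℚ A} (hx : x ∈ J A α) (hy : y ∈ J A β) :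
    x * y ∈ J A (α + β) := by
  intro q hq
  rw [coeff_mul]
  refine Finset.sum_eq_zero fun ij hij => ?_
  rw [Finset.mem_antidiagonal] at hij
  by_cases h : ij.1 < α
  · rw [hx _ h, zero_mul]
  · rw [hy _ (by linarith [hij.2.2]), mul_zero]

theorem J_single (α : ℚ) (r : A) : single α r ∈ J A α := by
  intro q hq
  rw [coeff_single_of_ne hq.ne]

theorem J_hD (D : Der A) (n : ℕ) {α : ℚ} {x : HahnSeries ℚ A} (hx : x ∈ J A α) :
    (hD D)^[n] x ∈ J A α := by
  intro q hq
  rw [hD_iter, hx q hq, iter_zero]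

theorem exists_J (x : HahnSeries ℚ A) : ∃ α, x ∈ J A α := by
  by_cases hx : x = 0
  · exact ⟨0, by rw [hx]; exact zero_mem _⟩
  · refine ⟨x.order, fun q hq => coeff_eq_zero_of_lt_order hq⟩

theorem eq_of_J {x y : HahnSeries ℚ A} (β : ℚ) (h : ∀ N : ℕ, x - y ∈ J A (N + β)) : x = y := by
  ext q
  obtain ⟨N, hN⟩ := exists_nat_gt (q - β)
  have := h N q (by linarith)
  rw [coeff_sub, sub_eq_zero] at this
  exact this

end hahn

section star
variable {A : Type*} [CommRing A] [DD A]

/-- `D1`, `D2` on Hahn series. -/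
noncomputable abbrev D1 : Der (HahnSeries ℚ A) := hD d1
noncomputable abbrev D2 : Der (HahnSeries ℚ A) := hD d2

theorem D_comm (n m : ℕ) (x : HahnSeries ℚ A) : D1^[n] (D2^[m] x) = D2^[m] (D1^[n] x) := by
  have h1 : ∀ x : HahnSeries ℚ A, D1 (D2 x) = D2 (D1 x) := by
    intro x; ext q; simp [D1, D2, dcomm]
  exact (Function.Commute.iterate_iterate (f := D1) (g := D2) h1 n m) x

/-- The inverse factorial. -/
noncomputable def fi (A : Type*) [CommRing A] [DD A] (n : ℕ) : A := DD.q ((n.factorial : ℚ)⁻¹)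

/-- The terms of the star product. -/
noncomputable def tm (n : ℕ) (a b : HahnSeries ℚ A) : HahnSeries ℚ A :=
  single (n : ℚ) (fi A n) * (D1^[n] a * D2^[n] b)

theorem tm_mem {α β : ℚ} {a b : HahnSeries ℚ A} (ha : a ∈ J A α) (hb : b ∈ J A β) (n : ℕ) :
    tm n a b ∈ J A (n + (α + β)) :=
  J_mul (J_single _ _) (J_mul (J_hD _ _ ha) (J_hD _ _ hb))

theorem tm_support (n : ℕ) (a b : HahnSeries ℚ A) :
    (tm n a b).support ⊆ Set.range ((↑) : ℕ → ℚ) + (a.support + b.support) := by
  refine (support_mul_subset).trans ?_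
  apply Set.add_subset_add
  · refine (support_single_subset).trans ?_
    rintro _ rfl
    exact ⟨n, rfl⟩
  · exact (support_mul_subset).trans
      (Set.add_subset_add (hD_iter_support _ _ _) (hD_iter_support _ _ _))

theorem natRange_isPWO : (Set.range ((↑) : ℕ → ℚ)).IsPWO := by
  rw [← Set.image_univ]
  exact (Set.isPWO_of_wellQuasiOrderedLE _).image_of_monotone Nat.mono_cast

/-- The star product `a ⋆ b = ∑ ħ^n / n! · d1^n a · d2^n b`. -/
noncomputable def star (a b : HahnSeries ℚ A) : HahnSeries ℚ A where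
  coeff q := ∑ᶠ n : ℕ, (tm n a b).coeff q
  isPWO_support' := by
    refine (natRange_isPWO.add (a.isPWO_support.add b.isPWO_support)).mono ?_
    intro q hq
    by_contra hcon
    exact hq (finsum_eq_zero_of_forall_eq_zero fun n => by
      by_contra hn
      exact hcon (tm_support n a b hn))

/-- Partial sums. -/
noncomputable def PN (N : ℕ) (a b : HahnSeries ℚ A) : HahnSeries ℚ A := ∑ n ∈ range N, tm n a b

theorem star_sub_PN {α β : ℚ} {a b : HahnSeries ℚ A} (ha : a ∈ J A α) (hb : b ∈ J A β) (N : ℕ) :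
    star a b - PN N a b ∈ J A (N + (α + β)) := by
  intro q hq
  rw [coeff_sub, sub_eq_zero]
  change ∑ᶠ n : ℕ, (tm n a b).coeff q = _
  rw [PN, coeff_sum]
  refine finsum_eq_sum_of_support_subset _ ?_
  intro n hn
  by_contra h
  rw [Finset.coe_range, Set.mem_Iio, not_lt] at h
  apply hn
  exact tm_mem ha hb n q (hq.trans_le (by have : (N : ℚ) ≤ n := by exact_mod_cast h
                                          linarith))

theorem star_mem {α β : ℚ} {a b : HahnSeries ℚ A} (ha : a ∈ J A α) (hb : b ∈ J A β) :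
    star a b ∈ J A (α + β) := by
  have := star_sub_PN ha hb 0
  simpa [PN] using this

theorem tm_add_left (n : ℕ) (a a' b : HahnSeries ℚ A) : tm n (a + a') b = tm n a b + tm n a' b := by
  rw [tm, iter_add, tm, tm]; ring
theorem tm_add_right (n : ℕ) (a b b' : HahnSeries ℚ A) : tm n a (b + b') = tm n a b + tm n a b' := by
  rw [tm, iter_add, tm, tm]; ring

theorem PN_add_left (N : ℕ) (a a' b : HahnSeries ℚ A) : PN N (a + a') b = PN N a b + PN N a' b := by
  simp only [PN, tm_add_left, sum_add_distrib]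
theorem PN_add_right (N : ℕ) (a b b' : HahnSeries ℚ A) : PN N a (b + b') = PN N a b + PN N a b' := by
  simp only [PN, tm_add_right, sum_add_distrib]

theorem star_add_left (a a' b : HahnSeries ℚ A) : star (a + a') b = star a b + star a' b := by
  obtain ⟨α, hα⟩ := exists_J a
  obtain ⟨α', hα'⟩ := exists_J a'
  obtain ⟨β, hβ⟩ := exists_J b
  have h1 := J_mono (min_le_left α α') hα
  have h2 := J_mono (min_le_right α α') hα'
  refine eq_of_J (min α α' + β) fun N => ?_
  have e1 := star_sub_PN (add_mem h1 h2) hβ N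
  have e2 := star_sub_PN h1 hβ N
  have e3 := star_sub_PN h2 hβ N
  have := sub_mem e1 (add_mem e2 e3)
  rw [PN_add_left] at this
  convert this using 1
  abel

theorem star_add_right (a b b' : HahnSeries ℚ A) : star a (b + b') = star a b + star a b' := by
  obtain ⟨α, hα⟩ := exists_J a
  obtain ⟨β, hβ⟩ := exists_J b
  obtain ⟨β', hβ'⟩ := exists_J b'
  have h1 := J_mono (min_le_left β β') hβ
  have h2 := J_mono (min_le_right β β') hβ'
  refine eq_of_J (α + min β β') fun N => ?_
  have e1 := star_sub_PN hα (add_mem h1 h2) N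
  have e2 := star_sub_PN hα h1 N
  have e3 := star_sub_PN hα h2 N
  have := sub_mem e1 (add_mem e2 e3)
  rw [PN_add_right] at this
  convert this using 1
  abel

theorem tm_zero_left (n : ℕ) (b : HahnSeries ℚ A) : tm n 0 b = 0 := by
  rw [tm, iter_zero, zero_mul, mul_zero]
theorem tm_zero_right (n : ℕ) (b : HahnSeries ℚ A) : tm n b 0 = 0 := by
  rw [tm, iter_zero, mul_zero, mul_zero]

theorem tm_sum_left (n : ℕ) {ι : Type*} (s : Finset ι) (f : ι → HahnSeries ℚ A) (b : HahnSeries ℚ A) :
    tm n (∑ i ∈ s, f i) b = ∑ i ∈ s, tm n (f i) b := by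
  classical
  induction s using Finset.induction_on with
  | empty => rw [sum_empty, sum_empty, tm_zero_left]
  | insert i s hi ih => rw [sum_insert hi, sum_insert hi, tm_add_left, ih]

theorem tm_sum_right (n : ℕ) {ι : Type*} (s : Finset ι) (f : ι → HahnSeries ℚ A) (b : HahnSeries ℚ A) :
    tm n b (∑ i ∈ s, f i) = ∑ i ∈ s, tm n b (f i) := by
  classical
  induction s using Finset.induction_on with
  | empty => rw [sum_empty, sum_empty, tm_zero_right]
  | insert i s hi ih => rw [sum_insert hi, sum_insert hi, tm_add_right, ih]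

theorem star_zero_left (b : HahnSeries ℚ A) : star 0 b = 0 := by
  have := star_add_left 0 0 b
  rw [add_zero] at this
  exact left_eq_add.mp this
theorem star_zero_right (b : HahnSeries ℚ A) : star b 0 = 0 := by
  have := star_add_right b 0 0
  rw [add_zero] at this
  exact left_eq_add.mp this

theorem PN_mem {α β : ℚ} {a b : HahnSeries ℚ A} (ha : a ∈ J A α) (hb : b ∈ J A β) (N : ℕ) :
    PN N a b ∈ J A (α + β) :=
  sum_mem fun n _ => J_mono (by have : (0 : ℚ) ≤ n := Nat.cast_nonneg n
                                linarith) (tm_mem ha hb n)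

theorem star_eq_PN {a b : HahnSeries ℚ A} (M : ℕ) (h : ∀ n, M ≤ n → tm n a b = 0) :
    star a b = PN M a b := by
  ext q
  change ∑ᶠ n : ℕ, (tm n a b).coeff q = _
  rw [PN, coeff_sum]
  refine finsum_eq_sum_of_support_subset _ ?_
  intro n hn
  by_contra hc
  rw [Finset.coe_range, Set.mem_Iio, not_lt] at hc
  apply hn
  change (tm n a b).coeff q = 0
  rw [h n hc, coeff_zero]

omit [DD A] in
theorem iter_const (D : Der A) {z : A} (hz : D z = 0) (m : ℕ) (x : A) :
    D^[m] (z * x) = z * D^[m] x := by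
  induction m with
  | zero => rfl
  | succ n ih =>
    rw [Function.iterate_succ_apply', Function.iterate_succ_apply', ih, Der.leib, hz, mul_zero, add_zero]

theorem hD_fi (D : Der A) (g : ℚ) (n : ℕ) : hD D (single g (fi A n)) = 0 := by
  ext q
  rw [hD_coeff]
  by_cases h : q = g
  · subst h; rw [coeff_single_same, fi, der_q, coeff_zero]
  · rw [coeff_single_of_ne h, map_zero, coeff_zero]

/-- The triple terms. -/
noncomputable def T3 (a b c : HahnSeries ℚ A) (n k l : ℕ) : HahnSeries ℚ A :=
  single ((n + k + l : ℕ) : ℚ) (fi A n * fi A k * fi A l) *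
    (D1^[n + k] a * (D1^[l] (D2^[n] b) * D2^[k + l] c))

theorem fi_choose {m k l : ℕ} (h : k + l = m) : fi A m * (m.choose k : A) = fi A k * fi A l := by
  subst h
  rw [fi, fi, fi, ← map_natCast (DD.q : ℚ →+* A), ← map_mul, ← map_mul]
  congr 1
  have h1 : ((k + l).choose k : ℚ) * (k.factorial : ℚ) * (l.factorial : ℚ) = ((k + l).factorial : ℚ) := by
    have := Nat.choose_mul_factorial_mul_factorial (Nat.le_add_right k l)
    rw [Nat.add_sub_cancel_left] at this
    exact_mod_cast this
  have hk : (k.factorial : ℚ) ≠ 0 := by exact_mod_cast k.factorial_ne_zero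
  have hl : (l.factorial : ℚ) ≠ 0 := by exact_mod_cast l.factorial_ne_zero
  have hkl : ((k + l).factorial : ℚ) ≠ 0 := by exact_mod_cast (k + l).factorial_ne_zero
  field_simp
  linarith

theorem single_choose {g : ℚ} {m k l : ℕ} (h : k + l = m) :
    single g (fi A m) * (m.choose k : HahnSeries ℚ A) = single g (fi A k * fi A l) := by
  rw [← fi_choose h]
  rw [← map_natCast (HahnSeries.C : A →+* HahnSeries ℚ A), HahnSeries.C_apply, single_mul_single, add_zero]

theorem tm_tm_left (a b c : HahnSeries ℚ A) (m n : ℕ) :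
    tm m (tm n a b) c = ∑ p ∈ HasAntidiagonal.antidiagonal m, T3 a b c n p.1 p.2 := by
  rw [tm, tm, iter_const D1 (hD_fi _ _ _), iter_leib, mul_sum, sum_mul, mul_sum]
  refine sum_congr rfl fun p hp => ?_
  have hp' : p.1 + p.2 = m := HasAntidiagonal.mem_antidiagonal.1 hp
  have e1 : (single ((n + p.1 + p.2 : ℕ) : ℚ) (fi A n * fi A p.1 * fi A p.2)) =
      single (n : ℚ) (fi A n) * (single (m : ℚ) (fi A m) * (m.choose p.1 : HahnSeries ℚ A)) := by
    rw [single_choose hp', single_mul_single]
    congr 1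
    · rw [← hp']; push_cast; ring
    · ring
  rw [T3, e1, nsmul_eq_mul, ← Function.iterate_add_apply, add_comm p.1 n, hp']
  ring

theorem tm_tm_right (a b c : HahnSeries ℚ A) (m n : ℕ) :
    tm n a (tm m b c) = ∑ p ∈ HasAntidiagonal.antidiagonal n, T3 a b c p.1 p.2 m := by
  rw [tm, tm, iter_const D2 (hD_fi _ _ _), iter_leib, mul_sum, mul_sum, mul_sum]
  refine sum_congr rfl fun p hp => ?_
  have hp' : p.1 + p.2 = n := HasAntidiagonal.mem_antidiagonal.1 hp
  have e1 : (single ((p.1 + p.2 + m : ℕ) : ℚ) (fi A p.1 * fi A p.2 * fi A m)) =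
      single (m : ℚ) (fi A m) * (single (n : ℚ) (fi A n) * (n.choose p.1 : HahnSeries ℚ A)) := by
    rw [single_choose hp', single_mul_single]
    congr 1
    · rw [← hp']; push_cast; ring
    · ring
  rw [T3, e1, nsmul_eq_mul, ← Function.iterate_add_apply, hp', D_comm]
  ring

theorem T3_mem {α β γ : ℚ} {a b c : HahnSeries ℚ A} (ha : a ∈ J A α) (hb : b ∈ J A β)
    (hc : c ∈ J A γ) (n k l : ℕ) : T3 a b c n k l ∈ J A ((n + k + l : ℕ) + (α + (β + γ))) :=
  J_mul (J_single _ _) (J_mul (J_hD _ _ ha) (J_mul (J_hD _ _ (J_hD _ _ hb)) (J_hD _ _ hc)))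

theorem tri {G : Type*} [AddCommGroup G] (S : AddSubgroup G) (N : ℕ) (F : ℕ → ℕ → G)
    (h : ∀ k l, N ≤ k + l → F k l ∈ S) :
    ∑ m ∈ range N, ∑ p ∈ HasAntidiagonal.antidiagonal m, F p.1 p.2 -
      ∑ k ∈ range N, ∑ l ∈ range N, F k l ∈ S := by
  have e1 : ∑ m ∈ range N, ∑ p ∈ HasAntidiagonal.antidiagonal m, F p.1 p.2 =
      ∑ k ∈ range N, ∑ l ∈ range (N - k), F k l := by
    rw [← Finset.sum_range_diag_flip]
    refine sum_congr rfl fun m _ => ?_
    rw [Finset.Nat.sum_antidiagonal_eq_sum_range_succ (fun k l => F k l)]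
  rw [e1, ← sum_sub_distrib]
  refine sum_mem fun k hk => ?_
  rw [mem_range] at hk
  have h2 : range (N - k) ⊆ range N := range_subset_range.mpr (Nat.sub_le _ _)
  rw [← sum_sdiff h2, sub_add_cancel_right]
  refine neg_mem (sum_mem fun l hl => ?_)
  rw [mem_sdiff, mem_range, mem_range, not_lt] at hl
  exact h k l (by omega)

theorem star_assoc (a b c : HahnSeries ℚ A) : star (star a b) c = star a (star b c) := by
  obtain ⟨α, ha⟩ := exists_J a
  obtain ⟨β, hb⟩ := exists_J b
  obtain ⟨γ, hc⟩ := exists_J c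
  refine eq_of_J (α + (β + γ)) fun N => ?_
  have l1 : star (star a b) c - PN N (star a b) c ∈ J A (N + (α + (β + γ))) := by
    have := star_sub_PN (star_mem ha hb) hc N
    rwa [add_assoc α β γ] at this
  have l2 : PN N (star a b) c - PN N (PN N a b) c ∈ J A (N + (α + (β + γ))) := by
    have h1 := PN_mem (star_sub_PN ha hb N) hc N
    have h2 : PN N (star a b - PN N a b) c = PN N (star a b) c - PN N (PN N a b) c := by
      rw [eq_sub_iff_add_eq, ← PN_add_left, sub_add_cancel]
    rw [h2] at h1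
    convert h1 using 2; ring
  have l3 : PN N (PN N a b) c - ∑ n ∈ range N, ∑ k ∈ range N, ∑ l ∈ range N, T3 a b c n k l ∈
      J A (N + (α + (β + γ))) := by
    have : PN N (PN N a b) c = ∑ n ∈ range N, ∑ m ∈ range N,
        ∑ p ∈ HasAntidiagonal.antidiagonal m, T3 a b c n p.1 p.2 := by
      rw [sum_comm]
      rw [PN, PN]
      refine sum_congr rfl fun m _ => ?_
      rw [tm_sum_left]
      exact sum_congr rfl fun n _ => tm_tm_left a b c m n
    rw [this, ← sum_sub_distrib]
    refine sum_mem fun n _ => tri _ N _ fun k l hkl => ?_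
    refine J_mono ?_ (T3_mem ha hb hc n k l)
    have : (N : ℚ) ≤ ((n + k + l : ℕ) : ℚ) := by exact_mod_cast (by omega)
    linarith
  have r1 : star a (star b c) - PN N a (star b c) ∈ J A (N + (α + (β + γ))) :=
    star_sub_PN ha (star_mem hb hc) N
  have r2 : PN N a (star b c) - PN N a (PN N b c) ∈ J A (N + (α + (β + γ))) := by
    have h1 := PN_mem ha (star_sub_PN hb hc N) N
    have h2 : PN N a (star b c - PN N b c) = PN N a (star b c) - PN N a (PN N b c) := by
      rw [eq_sub_iff_add_eq, ← PN_add_right, sub_add_cancel]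
    rw [h2] at h1
    convert h1 using 2; ring
  have r3 : PN N a (PN N b c) - ∑ n ∈ range N, ∑ k ∈ range N, ∑ l ∈ range N, T3 a b c n k l ∈
      J A (N + (α + (β + γ))) := by
    have e : PN N a (PN N b c) = ∑ m ∈ range N, ∑ n ∈ range N,
        ∑ p ∈ HasAntidiagonal.antidiagonal n, T3 a b c p.1 p.2 m := by
      rw [sum_comm]
      rw [PN, PN]
      refine sum_congr rfl fun n _ => ?_
      rw [tm_sum_right]
      exact sum_congr rfl fun m _ => tm_tm_right a b c m n
    have e2 : ∑ n ∈ range N, ∑ k ∈ range N, ∑ l ∈ range N, T3 a b c n k l =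
        ∑ l ∈ range N, ∑ n ∈ range N, ∑ k ∈ range N, T3 a b c n k l := by
      rw [sum_comm]
      have : ∀ k ∈ range N, ∑ n ∈ range N, ∑ l ∈ range N, T3 a b c n k l =
          ∑ l ∈ range N, ∑ n ∈ range N, T3 a b c n k l := fun k _ => sum_comm
      rw [sum_congr rfl this, sum_comm]
      exact sum_congr rfl fun l _ => sum_comm
    rw [e, e2, ← sum_sub_distrib]
    refine sum_mem fun m _ => tri _ N (fun n k => T3 a b c n k m) fun n k hnk => ?_
    refine J_mono ?_ (T3_mem ha hb hc n k m)
    have : (N : ℚ) ≤ ((n + k + m : ℕ) : ℚ) := by exact_mod_cast (by omega)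
    linarith
  have := sub_mem (add_mem (add_mem l1 l2) l3) (add_mem (add_mem r1 r2) r3)
  convert this using 1
  abel

theorem star_const_left {z : HahnSeries ℚ A} (hz : D1 z = 0) (b : HahnSeries ℚ A) : star z b = z * b := by
  rw [star_eq_PN 1, PN, range_one, sum_singleton, tm]
  · rw [show ((0 : ℕ) : ℚ) = 0 from Nat.cast_zero, fi]
    simp
  · intro n hn
    obtain ⟨m, rfl⟩ : ∃ m, n = m + 1 := ⟨n - 1, by omega⟩
    rw [tm, Function.iterate_succ_apply, hz, iter_zero, zero_mul, mul_zero]

theorem star_const_right {z : HahnSeries ℚ A} (hz : D2 z = 0) (b : HahnSeries ℚ A) : star b z = b * z := by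
  rw [star_eq_PN 1, PN, range_one, sum_singleton, tm]
  · rw [show ((0 : ℕ) : ℚ) = 0 from Nat.cast_zero, fi]
    simp
  · intro n hn
    obtain ⟨m, rfl⟩ : ∃ m, n = m + 1 := ⟨n - 1, by omega⟩
    rw [tm, Function.iterate_succ_apply (f := D2), hz, iter_zero, mul_zero, mul_zero]

omit [DD A] in
theorem coeff_mul_low {α β : ℚ} {a b : HahnSeries ℚ A} (ha : a ∈ J A α) (hb : b ∈ J A β) :
    (a * b).coeff (α + β) = a.coeff α * b.coeff β := by
  by_cases h0 : a.coeff α = 0
  · rw [h0, zero_mul, coeff_mul]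
    refine Finset.sum_eq_zero fun ij hij => ?_
    rw [Finset.mem_antidiagonal] at hij
    rcases lt_trichotomy ij.1 α with h | h | h
    · rw [ha _ h, zero_mul]
    · rw [h, h0, zero_mul]
    · rw [hb _ (by linarith [hij.2.2]), mul_zero]
  · by_cases h1 : b.coeff β = 0
    · rw [h1, mul_zero, coeff_mul]
      refine Finset.sum_eq_zero fun ij hij => ?_
      rw [Finset.mem_antidiagonal] at hij
      rcases lt_trichotomy ij.1 α with h | h | h
      · rw [ha _ h, zero_mul]
      · rw [show ij.2 = β by linarith [hij.2.2], h1, mul_zero]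
      · rw [hb _ (by linarith [hij.2.2]), mul_zero]
    · rw [coeff_mul, Finset.sum_eq_single (α, β)]
      · rintro ⟨i, j⟩ hij hne
        rw [Finset.mem_antidiagonal] at hij
        dsimp only at hij ⊢
        rcases lt_trichotomy i α with h | h | h
        · rw [ha _ h, zero_mul]
        · exact absurd (Prod.ext h (by dsimp only; linarith [hij.2.2])) hne
        · rw [hb _ (by linarith [hij.2.2]), mul_zero]
      · intro hn
        exact absurd (Finset.mem_antidiagonal.mpr ⟨h0, h1, rfl⟩) hn

theorem star_coeff_low {α β : ℚ} {a b : HahnSeries ℚ A} (ha : a ∈ J A α) (hb : b ∈ J A β) :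
    (star a b).coeff (α + β) = a.coeff α * b.coeff β := by
  have := star_sub_PN ha hb 1 (α + β) (by push_cast; linarith)
  rw [coeff_sub, sub_eq_zero] at this
  rw [this, PN, range_one, sum_singleton, tm]
  rw [show ((0 : ℕ) : ℚ) = 0 from Nat.cast_zero, fi]
  simpa using coeff_mul_low ha hb

end star

end Pool.Agent.AC215
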